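import Pool.Agent.H15.KEW.G4
import Pool.Agent.H62.KG.Diff
import Pool.Agent.H92.KST.PtsX

/-!
# The hypotheses of the vanishing theorem for schemes
-/

namespace Pool.Agent.H15.KEW

open AlgebraicGeometry CategoryTheory TopologicalSpace Pool.Agent.H19.KN IsLocalRing
open Pool.Agent.H62.MK Pool.Agent.H92.KST Pool.Agent.H84.KEW
open Pool.Agent.H17.KW (kap Pts entry column dFam)
open Pool.Agent.H12.KG (Sp GenSp kA stA rho)
open Pool.Agent.H62.KG (resX entry_eq NU dFam_mem)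

universe u

variable {X : Scheme.{u}} {A : Type u} [CommRing A]

/-- The points of codimension `d - s`. -/
abbrev pt (X : Scheme.{u}) (d s : ℕ) : Pts X d s → X.toTopCat := fun v => (v.1 : X)

/-- The groups `K_s(κ(v))`. -/
abbrev KK (X : Scheme.{u}) (d s : ℕ) : Pts X d s → Type u := fun v => MilnorK (kap X v.1) s

theorem gen_mem_US (f : X ⟶ Spec (CommRingCat.of A)) (π : A) (q n d s : ℕ)
    (c : Π₀ v : Pts X d s, KK X d s v) (x : X) :
    gen (pt X d s) (KK X d s) x c ∈ PP f π q n d s x ↔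
      ∀ (v : Pts X d s) (h : v.1 ⤳ x), GenSp f π v.1 x → c v ∈ US f π q n s h := by
  constructor
  · intro hc v h hg
    have := hc v h hg
    rwa [gen_apply_pos (pt X d s) c h] at this
  · intro hc v h hg
    rw [gen_apply_pos (pt X d s) c h]
    exact hc v h hg

/-- (fin) -/
theorem fin_PP [NoetherianSpace X] (f : X ⟶ Spec (CommRingCat.of A)) (π : A) (q n d s : ℕ)
    (c : Π₀ v : Pts X d s, KK X d s v) :
    {x : X.toTopCat | gen (pt X d s) (KK X d s) x c ∉ PP f π q n d s x}.Finite := by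
  classical
  have hsub : {x : X.toTopCat | gen (pt X d s) (KK X d s) x c ∉ PP f π q n d s x} ⊆
      ⋃ v ∈ (c.support : Set (Pts X d s)), {x : X | GenSp f π v.1 x} := by
    intro x hx
    have hx' : ¬ (gen (pt X d s) (KK X d s) x c ∈ PP f π q n d s x) := hx
    rw [gen_mem_US] at hx'
    push Not at hx'
    obtain ⟨v, h, hg, hv⟩ := hx'
    simp only [Set.mem_iUnion]
    refine ⟨v, ?_, hg⟩
    by_contra h0
    apply hv
    have : c v = 0 := by
      by_contra h1
      exact h0 (DFinsupp.mem_support_iff.2 h1)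
    rw [this]
    exact zero_mem _
  exact Set.Finite.subset (c.support.finite_toSet.biUnion fun v _ => genSp_finite f π v.1) hsub

/-- For a vertical point the only generic point of the special fibre of the closure is the point
itself. -/
theorem genSp_self (f : X ⟶ Spec (CommRingCat.of A)) (π : A) {v y : X} (hv : Sp f π v)
    (h : GenSp f π v y) : y = v := (h.2.2 v specializes_rfl h.1 hv).symm

theorem genSp_rfl (f : X ⟶ Spec (CommRingCat.of A)) (π : A) {v : X} (hv : Sp f π v) :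
    GenSp f π v v :=
  ⟨specializes_rfl, hv, fun _ h1 h2 _ => (h2.antisymm h1).eq⟩

/-- (ind) -/
theorem ind_PP [IsNoetherian X] (f : X ⟶ Spec (CommRingCat.of A)) (π : A) {q E : ℕ} {ε : A}
    (hε : IsUnit ε) (hq : (q : A) = ε * π ^ E) (n : ℕ) (hn : 1 ≤ n) (d s : ℕ) (x y0 : X)
    (h0 : y0 ⤳ x) (c : Π₀ v : Pts X d (s + 1), KK X d (s + 1) v) :
    ∃ c' : Π₀ v : Pts X d (s + 1), KK X d (s + 1) v,
      gen (pt X d (s + 1)) (KK X d (s + 1)) y0 (c' - c) ∈ PP f π q n d (s + 1) y0 ∧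
      ∀ y : X, y ⤳ x → y ≠ y0 →
        gen (pt X d (s + 1)) (KK X d (s + 1)) y c' ∈ PP f π q n d (s + 1) y := by
  classical
  have key : ∀ v : Pts X d (s + 1), ∃ b : KK X d (s + 1) v,
      (∀ (hwy : v.1 ⤳ y0), GenSp f π v.1 y0 → b - c v ∈ US f π q n (s + 1) hwy) ∧
      ∀ (y : X) (hwy : v.1 ⤳ y), y ⤳ x → y ≠ y0 → GenSp f π v.1 y →
        b ∈ US f π q n (s + 1) hwy := by
    intro v
    by_cases hv : Sp f π v.1
    · by_cases hvy : v.1 = y0
      · refine ⟨c v, fun _ _ => by rw [sub_self]; exact zero_mem _, ?_⟩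
        intro y hwy hyx hne hg
        exact absurd ((genSp_self f π hv hg).trans hvy) hne
      · refine ⟨0, fun _ hg => absurd (genSp_self f π hv hg).symm hvy, ?_⟩
        intro y hwy hyx hne hg
        exact zero_mem _
    · by_cases hvx : v.1 ⤳ x
      · obtain ⟨b, hb1, hb2⟩ := wa1_pts f π hvx hv hε hq n hn s y0 (c v)
        exact ⟨b, fun hwy hg => hb1 hwy h0 hg, hb2⟩
      · refine ⟨0, fun hwy _ => absurd (hwy.trans h0) hvx, ?_⟩
        intro y hwy hyx hne hg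
        exact absurd (hwy.trans hyx) hvx
  choose b hb1 hb2 using key
  let c' : Π₀ v : Pts X d (s + 1), KK X d (s + 1) v := DFinsupp.mk c.support fun v => b v.1
  have hc' : ∀ v, v ∈ c.support → c' v = b v := fun v hv => DFinsupp.mk_of_mem hv
  have hc'' : ∀ v, v ∉ c.support → c' v = 0 := fun v hv => DFinsupp.mk_of_notMem hv
  refine ⟨c', ?_, ?_⟩
  · rw [gen_mem_US]
    intro v h hg
    rw [DFinsupp.sub_apply]
    by_cases hv : v ∈ c.support
    · rw [hc' v hv]
      exact hb1 v h hg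
    · rw [hc'' v hv, DFinsupp.notMem_support_iff.1 hv, sub_zero]
      exact zero_mem _
  · intro y hyx hne
    rw [gen_mem_US]
    intro v h hg
    by_cases hv : v ∈ c.support
    · rw [hc' v hv]
      exact hb2 v y h hyx hne hg
    · rw [hc'' v hv]
      exact zero_mem _

/-- Residues of small symbols are small. -/
theorem NU' [IsDomain A] [IsDiscreteValuationRing A] [CharZero A]
    [∀ y : X, IsNoetherianRing (X.presheaf.stalk y)] (f : X ⟶ Spec (CommRingCat.of A)) (π : A)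
    (hπ : Irreducible π) {q E : ℕ} {ε : A} (hε : IsUnit ε) (hq : (q : A) = ε * π ^ E)
    (hq1 : 1 ≤ q) (n : ℕ) (hn : 2 * E + 1 ≤ n) (s : ℕ) {v w y : X} (h : v ⤳ w) (h' : w ⤳ y)
    (hg : GenSp f π w y) (c : MilnorK (kap X v) (s + 1))
    (hc : c ∈ US f π q n (s + 1) (h.trans h')) : resX h s c ∈ US f π q n s h' :=
  NU ok_GRES ok_GRV f π hπ h h' q E n hq1 hn
    (fun hw => good_BB ok_GOODE f π h' hw hg hε hq) s c hc

theorem pts_coheight {d s : ℕ} (v : Pts X d s) :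
    ∃ k : ℕ, Order.coheight v.1 = k ∧ k + s = d := by
  have h := v.2
  have hne : Order.coheight v.1 ≠ ⊤ := by
    intro e
    rw [e] at h
    simp at h
  obtain ⟨k, hk⟩ := ENat.ne_top_iff_exists.1 hne
  refine ⟨k, hk.symm, ?_⟩
  rw [← hk] at h
  exact_mod_cast h

/-- The dimension function. -/
noncomputable def dl (X : Scheme.{u}) (d : ℕ) (x : X.toTopCat) : ℕ :=
  d + 1 - (Order.coheight (α := X) x).toNat

theorem dl_spec {d : ℕ} (hdim : ∀ x : X, Order.coheight x ≤ d + 1) (x : X) :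
    ∃ k : ℕ, Order.coheight x = k ∧ k + dl X d x = d + 1 := by
  have hne : Order.coheight x ≠ ⊤ := by
    intro e
    have := hdim x
    rw [e] at this
    exact absurd this (by simp)
  obtain ⟨k, hk⟩ := ENat.ne_top_iff_exists.1 hne
  refine ⟨k, hk.symm, ?_⟩
  have h1 : k ≤ d + 1 := by
    have := hdim x
    rw [← hk] at this
    exact_mod_cast this
  unfold dl
  rw [← hk, ENat.toNat_natCast]
  omega

theorem dl_lt {d : ℕ} (hdim : ∀ x : X, Order.coheight x ≤ d + 1) (x y : X) (h : x ⤳ y)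
    (hne : x ≠ y) : dl X d y < dl X d x := by
  obtain ⟨k, hk, hk'⟩ := dl_spec hdim x
  obtain ⟨l, hl, hl'⟩ := dl_spec hdim y
  have := coheight_add_one_le h hne
  rw [hk, hl] at this
  have h2 : k + 1 ≤ l := by exact_mod_cast this
  omega

/-- A horizontal point is specialised in codimension one only to generic points of the special
fibre. -/
theorem genSp_of_coheight (f : X ⟶ Spec (CommRingCat.of A)) (π : A) {v y : X} (h : v ⤳ y)
    (hv : ¬ Sp f π v) (hy : Sp f π y) {k : ℕ} (hk : Order.coheight v = k)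
    (hle : Order.coheight y ≤ k + 1) : GenSp f π v y := by
  refine ⟨h, hy, fun z h1 h2 hz => ?_⟩
  by_contra hne
  have h3 : v ≠ z := by rintro rfl; exact hv hz
  have h4 := coheight_add_one_le h1 h3
  have h5 := coheight_add_one_le h2 hne
  rw [hk] at h4
  have h6 : ((k : ℕ∞) + 1) + 1 ≤ k + 1 := (add_le_add_left h4 1).trans (h5.trans hle)
  have h7 : k + 1 + 1 ≤ k + 1 := by exact_mod_cast h6
  omega

section V

variable (f : X ⟶ Spec (CommRingCat.of A)) (π : A)
    (hπ : Irreducible π) {q E : ℕ} {ε : A} (hε : IsUnit ε) (hq : (q : A) = ε * π ^ E)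
    (hq1 : 1 ≤ q) (n : ℕ) (hn : 2 * E + 1 ≤ n) {d : ℕ}
    (hdim : ∀ x : X, Order.coheight x ≤ d + 1) (s : ℕ)

include hn in
/-- Vertical components satisfying all conditions are `q`-fold. -/
theorem vert_mem (a : Π₀ v : Pts X d (s + 1), KK X d (s + 1) v) (y : X)
    (ha : ∀ y' : X, y' ⤳ y → gen (pt X d (s + 1)) (KK X d (s + 1)) y' a ∈
      PP f π q n d (s + 1) y') (v : Pts X d (s + 1)) (hv : Sp f π v.1) (h : v.1 ⤳ y)
    {z : X} (hz : v.1 ⤳ z) : a v ∈ US f π q n (s + 1) hz := by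
  have h1 := (gen_mem_US f π q n d (s + 1) a v.1).1 (ha v.1 h) v specializes_rfl
    (genSp_rfl f π hv)
  obtain ⟨b, hb⟩ := exists_of_mem_US f π q n (s + 1) (by omega) specializes_rfl hv (a v) h1
  rw [hb]
  exact smul_mem_US f π q n (s + 1) hz b

variable [IsNoetherian X] [IsDomain A] [IsDiscreteValuationRing A] [CharZero A]

include hπ hε hq hq1 hn hdim in
/-- (V1) -/
theorem v1_PP (y : X) (a : Π₀ v : Pts X d (s + 1), KK X d (s + 1) v) (hy : s < dl X d y)
    (ha : ∀ y' : X, y' ⤳ y → gen (pt X d (s + 1)) (KK X d (s + 1)) y' a ∈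
      PP f π q n d (s + 1) y') :
    gen (pt X d s) (KK X d s) y (dFam X d s (gen (pt X d (s + 1)) (KK X d (s + 1)) y a)) ∈
      PP f π q n d s y := by
  rw [gen_mem_US]
  intro w hw hg
  refine dFam_mem X d s _ w _ fun v hvw => ?_
  have hvy : v.1 ⤳ y := hvw.trans hw
  rw [gen_apply_pos (pt X d (s + 1)) a hvy]
  refine NU' f π hπ hε hq hq1 n hn s hvw hw hg (a v) ?_
  by_cases hv : Sp f π v.1
  · exact vert_mem f π n hn s a y ha v hv hvy _
  · obtain ⟨k, hk, hks⟩ := pts_coheight v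
    obtain ⟨l, hl, hls⟩ := dl_spec hdim y
    have hgy : GenSp f π v.1 y := by
      refine genSp_of_coheight f π hvy hv hg.2.1 hk ?_
      rw [hl]
      have : l ≤ k + 1 := by omega
      exact_mod_cast this
    exact (gen_mem_US f π q n d (s + 1) a y).1 (ha y specializes_rfl) v hvy hgy

include hπ hε hq hq1 hdim in
/-- (V2), one component. -/
theorem v2_comp (hS : T_STARX.{u}) (hNAG : T_NAG.{u}) [LocallyOfFiniteType f]
    (hn2 : 2 * E + 2 ≤ n) (m : ℕ) (x y0 : X) (h0 : y0 ⤳ x) (hd0 : dl X d y0 = m + 1)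
    (a : Π₀ v : Pts X d (m + 2), KK X d (m + 2) v)
    (ha : ∀ y : X, y ⤳ y0 → gen (pt X d (m + 2)) (KK X d (m + 2)) y a ∈
      PP f π q n d (m + 2) y) (v : Pts X d (m + 2)) :
    ∃ b : KK X d (m + 2) v,
      (∀ (y : X) (hvy : v.1 ⤳ y), y ⤳ x → GenSp f π v.1 y → b ∈ US f π q n (m + 2) hvy) ∧
      (∀ (y : X) (hvy : v.1 ⤳ y), y ⤳ y0 → Sp f π y → b - a v ∈ US f π q n (m + 2) hvy) ∧
      ∀ y1 : X, y1 ⤳ x → dl X d y1 = m + 1 → y1 ≠ y0 → ∀ (y : X) (hvy : v.1 ⤳ y), y ⤳ y1 →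
        Sp f π y → b ∈ US f π q n (m + 2) hvy := by
  by_cases hvy0 : v.1 ⤳ y0
  swap
  · exact ⟨0, fun _ _ _ _ => zero_mem _, fun y hvy hy _ => absurd (hvy.trans hy) hvy0,
      fun _ _ _ _ _ _ _ _ => zero_mem _⟩
  by_cases hsp0 : Sp f π y0
  swap
  · exact ⟨0, fun _ _ _ _ => zero_mem _, fun y hvy hy hsp => absurd (Sp.mono hy hsp) hsp0,
      fun _ _ _ _ _ _ _ _ => zero_mem _⟩
  by_cases hv : Sp f π v.1
  · refine ⟨0, fun _ _ _ _ => zero_mem _, fun y hvy hy hsp => ?_,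
      fun _ _ _ _ _ _ _ _ => zero_mem _⟩
    rw [zero_sub]
    exact neg_mem (vert_mem (E := E) f π n (by omega) (m + 1) a y0 ha v hv hvy0 hvy)
  by_cases hg0 : GenSp f π v.1 y0
  · refine ⟨0, fun _ _ _ _ => zero_mem _, fun y hvy hy hsp => ?_,
      fun _ _ _ _ _ _ _ _ => zero_mem _⟩
    rw [zero_sub]
    refine neg_mem (US_mono f π q n (m + 2) hvy0 hvy hy ?_)
    exact (gen_mem_US f π q n d (m + 2) a y0).1 (ha y0 specializes_rfl) v hvy0 hg0
  · have hvx : v.1 ⤳ x := hvy0.trans h0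
    have hP := ptSit hNAG f hπ hε hq hq1 hvx hv (Sp.mono h0 hsp0)
    obtain ⟨k, hk, hks⟩ := pts_coheight v
    have hfin : Order.coheight v.1 ≠ ⊤ := by rw [hk]; simp
    have hco : ∀ y1 : X, dl X d y1 = m + 1 → Order.coheight y1 ≤ Order.coheight v.1 + 2 := by
      intro y1 hd1
      obtain ⟨l, hl, hls⟩ := dl_spec hdim y1
      rw [hl, hk]
      have : l ≤ k + 2 := by omega
      exact_mod_cast this
    obtain ⟨c', h1, h2, h3⟩ := starx_pts hS f π hn2 hvx hP hv hfin h0 hvy0 hsp0 hg0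
      (hco y0 hd0) m (a v) (fun y hvy hy hg =>
        (gen_mem_US f π q n d (m + 2) a y).1 (ha y hy) v hvy hg)
    refine ⟨c', fun y hvy hyx hg => h1 y hvy hyx hg, fun y hvy hy hsp => ?_, ?_⟩
    · exact US_mono f π q n (m + 2) hvy0 hvy hy h2
    · intro y1 hy1x hd1 hne y hvy hy hsp
      have hvy1 : v.1 ⤳ y1 := hvy.trans hy
      refine US_mono f π q n (m + 2) hvy1 hvy hy ?_
      by_cases hg1 : GenSp f π v.1 y1
      · exact h1 y1 hvy1 hy1x hg1
      · exact h3 y1 hvy1 hy1x (Sp.mono hy hsp) hg1 (hco y1 hd1) hne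

include hπ hε hq hq1 hdim in
/-- (V2) -/
theorem v2_PP (hS : T_STARX.{u}) (hNAG : T_NAG.{u}) [LocallyOfFiniteType f]
    (hn2 : 2 * E + 2 ≤ n) (m : ℕ) (x y0 : X) (h0 : y0 ⤳ x) (hd0 : dl X d y0 = m + 1)
    (a : Π₀ v : Pts X d (m + 2), KK X d (m + 2) v)
    (ha : ∀ y : X, y ⤳ y0 → gen (pt X d (m + 2)) (KK X d (m + 2)) y a ∈
      PP f π q n d (m + 2) y) :
    ∃ a' : Π₀ v : Pts X d (m + 2), KK X d (m + 2) v,
      (∀ y : X, y ⤳ x → gen (pt X d (m + 2)) (KK X d (m + 2)) y a' ∈ PP f π q n d (m + 2) y) ∧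
      (∀ y : X, y ⤳ y0 → gen (pt X d (m + 1)) (KK X d (m + 1)) y (dFam X d (m + 1) (a' - a)) ∈
        PP f π q n d (m + 1) y) ∧
      ∀ y1 : X, y1 ⤳ x → dl X d y1 = m + 1 → y1 ≠ y0 → ∀ y : X, y ⤳ y1 →
        gen (pt X d (m + 1)) (KK X d (m + 1)) y (dFam X d (m + 1) a') ∈
          PP f π q n d (m + 1) y := by
  classical
  choose b hb1 hb2 hb3 using
    v2_comp f π hπ hε hq hq1 n hdim hS hNAG hn2 m x y0 h0 hd0 a ha
  let a' : Π₀ v : Pts X d (m + 2), KK X d (m + 2) v := DFinsupp.mk a.support fun v => b v.1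
  have e1 : ∀ v, v ∈ a.support → a' v = b v := fun v hv => DFinsupp.mk_of_mem hv
  have e2 : ∀ v, v ∉ a.support → a' v = 0 := fun v hv => DFinsupp.mk_of_notMem hv
  refine ⟨a', ?_, ?_, ?_⟩
  · intro y hyx
    rw [gen_mem_US]
    intro v h hg
    by_cases hv : v ∈ a.support
    · rw [e1 v hv]; exact hb1 v y h hyx hg
    · rw [e2 v hv]; exact zero_mem _
  · intro y hy
    rw [gen_mem_US]
    intro w hw hg
    refine dFam_mem X d (m + 1) _ w _ fun v hvw => ?_
    refine NU' f π hπ hε hq hq1 n (by omega) (m + 1) hvw hw hg _ ?_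
    rw [DFinsupp.sub_apply]
    by_cases hv : v ∈ a.support
    · rw [e1 v hv]; exact hb2 v y (hvw.trans hw) hy hg.2.1
    · rw [e2 v hv, DFinsupp.notMem_support_iff.1 hv, sub_zero]; exact zero_mem _
  · intro y1 hy1 hd1 hne y hy
    rw [gen_mem_US]
    intro w hw hg
    refine dFam_mem X d (m + 1) _ w _ fun v hvw => ?_
    refine NU' f π hπ hε hq hq1 n (by omega) (m + 1) hvw hw hg _ ?_
    by_cases hv : v ∈ a.support
    · rw [e1 v hv]; exact hb3 v y1 hy1 hd1 hne y (hvw.trans hw) hy hg.2.1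
    · rw [e2 v hv]; exact zero_mem _

end V

end Pool.Agent.H15.KEW
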