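import Pool.Agent.H15.KEW.Asm2
import Pool.Agent.H14.KEW.Epi

/-!
# Assembly: the theorem from its four inputs
-/

namespace Pool.Agent.H15.KEW

open AlgebraicGeometry CategoryTheory TopologicalSpace Opposite Pool.Agent.H19.KN IsLocalRing
open Pool.Agent.H62.MK Pool.Agent.H92.KST Pool.Agent.H84.KEW
open Pool.Agent.H17.KW
open Pool.Agent.H12.KG (projStr S_LAST)

universe u

variable {X : Scheme.{u}} {A : Type u} [CommRing A]

/-- The class of a cycle. -/
noncomputable def mkCH (X : Scheme.{u}) [IsNoetherian X] (e : ℕ) : Cyc X (e + 1) →+ CH X e :=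
  QuotientAddGroup.mk' (dFam X (e + 1) 0).range

theorem mkCH_surjective (X : Scheme.{u}) [IsNoetherian X] (e : ℕ) :
    Function.Surjective (mkCH X e) := QuotientAddGroup.mk'_surjective _

theorem mkCH_dFam [IsNoetherian X] {e : ℕ} (h : Π₀ w : Pts X (e + 1) 1, KK X (e + 1) 1 w) :
    mkCH X e (dFam X (e + 1) 0 h) = 0 :=
  (QuotientAddGroup.eq_zero_iff _).2 ⟨h, rfl⟩

/-- A class in `CH / q` is zero if its cycle is a boundary modulo `q`. -/
theorem toModQ_CH_eq_zero [IsNoetherian X] {e q : ℕ} (z : Cyc X (e + 1))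
    (h : Π₀ w : Pts X (e + 1) 1, KK X (e + 1) 1 w) (c : Cyc X (e + 1))
    (hz : z = dFam X (e + 1) 0 h + q • c) :
    toModQ q (CH X e) (mkCH X e z) = 0 := by
  rw [toModQ_eq_zero]
  refine ⟨mkCH X e c, ?_⟩
  rw [hz, map_add, mkCH_dFam, map_nsmul, zero_add]

attribute [local instance] MvPolynomial.gradedAlgebra in
/-- The degree one part generates. -/
theorem adjoin_one (A : Type u) [CommRing A] (N : ℕ) :
    Algebra.adjoin A ((MvPolynomial.homogeneousSubmodule (Fin (N + 1)) A 1 :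
      Submodule A (MvPolynomial (Fin (N + 1)) A)) : Set (MvPolynomial (Fin (N + 1)) A)) = ⊤ := by
  rw [eq_top_iff, ← MvPolynomial.adjoin_range_X]
  refine Algebra.adjoin_mono ?_
  rintro _ ⟨i, rfl⟩
  exact MvPolynomial.isHomogeneous_X A i

attribute [local instance] MvPolynomial.gradedAlgebra in
/-- The main theorem for `r ≥ 1`, with explicit bound. -/
theorem injective_res (hS : T_STARX.{u}) (hNAG : T_NAG.{u}) (hL : S_LAST.{u})
    (hK : T_KILLX.{u}) [IsDomain A] [IsDiscreteValuationRing A] [HenselianLocalRing A]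
    [CharZero A] (p : ℕ) (hp : p.Prime) (π ε : A) (hπ : Irreducible π) (hε : IsUnit ε) (E r n : ℕ)
    (hpE : (p : A) = ε * π ^ E) (hr : 1 ≤ r) (hn : 2 * (r * E) + 2 ≤ n) [IsNoetherian X]
    (f : X ⟶ Spec (CommRingCat.of A)) (e : ℕ) [SmoothOfRelativeDimension (e + 1) f]
    (hf : IsProjectiveOver f) (h : Gersten X e) : Function.Injective (res f (p ^ r) n h) := by
  classical
  have hdim : ∀ x : X, Order.coheight x ≤ (e + 1 : ℕ) + 1 := coheight_le_of_smooth f (e + 1)
  have hsm : Smooth f := SmoothOfRelativeDimension.smooth (n := e + 1) f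
  have hlft : LocallyOfFiniteType f := inferInstance
  have hq : ((p ^ r : ℕ) : A) = ε ^ r * π ^ (r * E) := by
    rw [Nat.cast_pow, hpE, mul_pow, ← pow_mul, mul_comm E r]
  have hq1 : 1 ≤ p ^ r := Nat.one_le_pow _ _ hp.pos
  obtain ⟨φ, hφ⟩ := hK A X f π hπ (p ^ r) n e (by omega) h
  rw [injective_iff_map_eq_zero]
  intro x hx
  obtain ⟨y, rfl⟩ := toModQ_surjective (p ^ r) (CH X e) x
  obtain ⟨z, rfl⟩ := mkCH_surjective X e y
  have hz : Sheaf.H.map (redSh (thickι f n) (p ^ r) (e + 1)) (e + 1) (cycK h z) = 0 := hx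
  obtain ⟨J, hJ, V, g, g1, g2, g3⟩ := chase_PP hS hNAG f π hπ (hε.pow r) hq hq1 n hn e hdim h
    (redSh (thickι f n) (p ^ r) (e + 1)) φ hφ z hz
  obtain ⟨N, i, hi, hif⟩ := hf
  have hif' : f = i ≫ projStr (MvPolynomial.homogeneousSubmodule (Fin (N + 1)) A) := hif.symm
  subst hif'
  obtain ⟨h', c', hc'⟩ := hlast hL (MvPolynomial.homogeneousSubmodule (Fin (N + 1)) A)
    (MvPolynomial.homogeneousSubmodule_fg (Fin (N + 1)) A 1) (adjoin_one A N) i hi π hπ p hp ε E r n hpE hε hr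
    (by omega) hdim J V g1 g z g2 g3
  exact toModQ_CH_eq_zero z h' c' hc'

/-- The statement from its four inputs. -/
theorem statement_of (hS : T_STARX.{u}) (hNAG : T_NAG.{u}) (hL : S_LAST.{u})
    (hK : T_KILLX.{u}) : Statement.{u} := by
  intro A _ _ _ _ _ p _ _ X _ f e _ hf h r
  have hp : p.Prime := Fact.out
  rcases Nat.eq_zero_or_pos r with rfl | hr
  · refine ⟨0, fun n _ => ?_⟩
    rw [injective_iff_map_eq_zero]
    intro x _
    obtain ⟨y, rfl⟩ := toModQ_surjective (p ^ 0) (CH X e) x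
    rw [toModQ_eq_zero]
    exact ⟨y, by rw [pow_zero, one_smul]⟩
  · obtain ⟨π, hπ⟩ := IsDiscreteValuationRing.exists_irreducible A
    have hp0 : (p : A) ≠ 0 := Nat.cast_ne_zero.2 hp.ne_zero
    obtain ⟨E, ε, hE⟩ := IsDiscreteValuationRing.eq_unit_mul_pow_irreducible hp0 hπ
    exact ⟨2 * (r * E) + 2, fun n hn => injective_res hS hNAG hL hK p hp π ε hπ ε.isUnit E r n hE
      hr hn f e hf h⟩

end Pool.Agent.H15.KEW
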