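import Pool.Agent.H84.KEW.Defs

/-!
# Project KEW: the abstract vanishing theorem (statement)
-/

namespace Pool.Agent.H15.KEW

open CategoryTheory TopologicalSpace Opposite Limits Pool.Agent.H84.KEW

universe u

/-- The subgroups defining the subcomplex: the part of `f` at `x` lies in `P x` and the part of
`φ f` at `x` lies in `P' x`. -/
noncomputable def subP {X : TopCat.{u}} {ι κ : Type u} {p : ι → X} {q : κ → X} {A : ι → Type u}
    {B : κ → Type u} [∀ i, AddCommGroup (A i)] [∀ k, AddCommGroup (B k)]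
    (φ : (Π₀ i, A i) →+ (Π₀ k, B k)) (P : X → AddSubgroup (Π₀ i, A i))
    (P' : X → AddSubgroup (Π₀ k, B k)) (x : X) : AddSubgroup (Π₀ i, A i) :=
  P x ⊓ (P' x).comap ((gen q B x).comp φ)

/-- The abstract vanishing theorem: `H^m(X, C/U) = 0`. The function `δ` plays the role of the
dimension of the closure of a point. -/
def S_VAN : Prop :=
  ∀ (X : TopCat.{u}) [NoetherianSpace X] [T0Space X] [QuasiSober X]
    (ι κ : Type u) (p : ι → X) (q : κ → X) (A : ι → Type u) (B : κ → Type u)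
    [∀ i, AddCommGroup (A i)] [∀ k, AddCommGroup (B k)]
    (φ : (Π₀ i, A i) →+ (Π₀ k, B k)), IsLocalHom p q φ →
    ∀ (P : X → AddSubgroup (Π₀ i, A i)) (P' : X → AddSubgroup (Π₀ k, B k)) (δ : X → ℕ) (m : ℕ),
    1 ≤ m → (∀ x y : X, x ⤳ y → x ≠ y → δ y < δ x) →
    -- every family satisfies almost all conditions
    (∀ f : Π₀ i, A i, {x : X | gen p A x f ∉ P x}.Finite) →
    -- the conditions are independent
    (∀ (x y₀ : X) (_ : y₀ ⤳ x) (c : Π₀ i, A i), ∃ c' : Π₀ i, A i, gen p A y₀ (c' - c) ∈ P y₀ ∧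
      ∀ y : X, y ⤳ x → y ≠ y₀ → gen p A y c' ∈ P y) →
    -- (V1)
    (∀ (y : X) (a : Π₀ i, A i), m < δ y → (∀ y' : X, y' ⤳ y → gen p A y' a ∈ P y') →
      gen q B y (φ (gen p A y a)) ∈ P' y) →
    -- (V2)
    (∀ (x y₀ : X) (_ : y₀ ⤳ x) (a : Π₀ i, A i), δ y₀ = m →
      (∀ y : X, y ⤳ y₀ → gen p A y a ∈ P y) →
      ∃ a' : Π₀ i, A i, (∀ y : X, y ⤳ x → gen p A y a' ∈ P y) ∧
        (∀ y : X, y ⤳ y₀ → gen q B y (φ (a' - a)) ∈ P' y) ∧
        ∀ y₁ : X, y₁ ⤳ x → δ y₁ = m → y₁ ≠ y₀ → ∀ y : X, y ⤳ y₁ → gen q B y (φ a') ∈ P' y) →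
    Subsingleton (Sheaf.H (cokernel (FSh.incl (stalkwise p A (subP (p := p) (q := q) φ P P'))
      (E p A) (fun _ _ hf => hf.1))) m)

end Pool.Agent.H15.KEW
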