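import Pool.Agent.H15.KEW.G2
import Pool.Agent.H15.KEW.Van
import Pool.Agent.H17.KW.Cx
import Pool.Agent.H19.KN.All

/-!
# The hypotheses of the vanishing theorem for schemes
-/

namespace Pool.Agent.H15.KEW

open AlgebraicGeometry CategoryTheory TopologicalSpace Pool.Agent.H19.KN IsLocalRing
open Pool.Agent.H62.MK Pool.Agent.H92.KST Pool.Agent.H84.KEW
open Pool.Agent.H17.KW (kap Pts entry column dFam)
open Pool.Agent.H12.KG (Sp GenSp kA stA rho)

universe u

variable {X : Scheme.{u}} {A : Type u} [CommRing A]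

/-- The small symbols of degree `s` at a generic point `x` of the special fibre of the closure
of `v`. -/
noncomputable def US (f : X ⟶ Spec (CommRingCat.of A)) (π : A) (q n s : ℕ) {v x : X} (h : v ⤳ x) :
    AddSubgroup (MilnorK (kap X v) s) :=
  USub (F := X.residueField v) q (kA f v π) n (BB h) s

/-- The conditions at the point `x`. -/
noncomputable def PP (f : X ⟶ Spec (CommRingCat.of A)) (π : A) (q n d s : ℕ) (x : X) :
    AddSubgroup (Π₀ v : Pts X d s, MilnorK (kap X v.1) s) where
  carrier := {c | ∀ (v : Pts X d s) (h : v.1 ⤳ x), GenSp f π v.1 x → c v ∈ US f π q n s h}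
  zero_mem' := fun v h _ => (US f π q n s h).zero_mem
  add_mem' := fun {a b} ha hb v h hg => by
    rw [DFinsupp.add_apply]; exact (US f π q n s h).add_mem (ha v h hg) (hb v h hg)
  neg_mem' := fun {a} ha v h hg => by
    rw [DFinsupp.neg_apply]; exact (US f π q n s h).neg_mem (ha v h hg)

theorem isOpen_not_sp (f : X ⟶ Spec (CommRingCat.of A)) (π : A) : IsOpen {x : X | ¬ Sp f π x} := by
  have : {x : X | ¬ Sp f π x} =
      (X.basicOpen (f.appTop ((Scheme.ΓSpecIso (CommRingCat.of A)).inv π)) : Set X) := by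
    ext x
    show ¬ ¬ IsUnit _ ↔ _
    rw [not_not]
    have h := X.mem_basicOpen (U := ⊤) (f.appTop ((Scheme.ΓSpecIso (CommRingCat.of A)).inv π)) x
      trivial
    exact h.symm
  rw [this]
  exact (X.basicOpen _).2

/-- The closure of a point has finitely many generic points in the special fibre. -/
theorem genSp_finite [NoetherianSpace X] (f : X ⟶ Spec (CommRingCat.of A)) (π : A) (v : X) :
    {y : X | GenSp f π v y}.Finite := by
  let T : Set X := closure {v} ∩ {x : X | Sp f π x}
  have hTc : IsClosed T := isClosed_closure.inter (by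
      have := (isOpen_not_sp f π).isClosed_compl
      have e : {x : X | ¬ Sp f π x}ᶜ = {x : X | Sp f π x} := by ext x; simp
      rwa [e] at this)
  obtain ⟨S, hS, hcl, hirr, hT⟩ := NoetherianSpace.exists_finite_set_isClosed_irreducible hTc
  have hsub : {y : X | GenSp f π v y} ⊆
      ⋃ t ∈ S, {y : X | closure {y} = t} := by
    intro y hy
    have hyT : y ∈ T := ⟨hy.1.mem_closure, hy.2.1⟩
    rw [hT] at hyT
    obtain ⟨t, ht, hyt⟩ := hyT
    simp only [Set.mem_iUnion]
    refine ⟨t, ht, ?_⟩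
    obtain ⟨z, hz⟩ := QuasiSober.sober (hirr t ht) (hcl t ht)
    have hzy : z ⤳ y := hz.specializes hyt
    have htT : t ⊆ T := by rw [hT]; exact Set.subset_sUnion_of_mem ht
    have hzT : z ∈ T := htT (hz.mem)
    have hvz : v ⤳ z := specializes_iff_mem_closure.2 hzT.1
    have := hy.2.2 z hvz hzy hzT.2
    subst this
    exact hz
  refine Set.Finite.subset (hS.biUnion fun t ht => ?_) hsub
  refine Set.Subsingleton.finite ?_
  intro y hy y' hy'
  have h1 : closure {y} = closure ({y'} : Set X) := hy.trans hy'.symm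
  exact (inseparable_iff_closure_eq.2 h1).eq

theorem US_mono (f : X ⟶ Spec (CommRingCat.of A)) (π : A) (q n s : ℕ) {v y x : X} (h : v ⤳ x)
    (hvy : v ⤳ y) (hyx : y ⤳ x) : US f π q n s h ≤ US f π q n s hvy := by
  refine USub_mono (F := X.residueField v) q _ n ?_ s
  intro z hz
  have hz' : IsIntegral (rho h).range z := hz
  have hle : (rho h).range ≤ (rho hvy).range := by
    rintro _ ⟨a, rfl⟩
    exact ⟨X.presheaf.stalkSpecializes hyx a, rho_comp hvy hyx a⟩
  show IsIntegral (rho hvy).range z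
  obtain ⟨P, hP, hPz⟩ := hz'
  refine ⟨P.map (Subring.inclusion hle), hP.map _, ?_⟩
  rw [Polynomial.eval₂_map]
  exact hPz

theorem smul_mem_US (f : X ⟶ Spec (CommRingCat.of A)) (π : A) (q n s : ℕ) {v x : X} (h : v ⤳ x)
    (c : MilnorK (kap X v) s) : q • c ∈ US f π q n s h :=
  (ok_UMEM (X.residueField v) (BB h) (kA f v π) q n).2.2.1 s c

/-- For a vertical point small symbols are `q`-fold. -/
theorem exists_of_mem_US (f : X ⟶ Spec (CommRingCat.of A)) (π : A) (q n s : ℕ) (hn : 1 ≤ n)
    {v x : X} (h : v ⤳ x) (hv : Sp f π v) (c : MilnorK (kap X v) s) (hc : c ∈ US f π q n s h) :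
    ∃ b, c = q • b := by
  have hπ : kA f v π = 0 := (sp_iff' f π v).1 hv
  unfold US USub at hc
  induction hc using AddSubgroup.closure_induction with
  | mem z hz =>
    cases s with
    | zero => exact hz
    | succ s =>
      rcases hz with hz | ⟨u, ⟨a, -, hu⟩, y, rfl⟩
      · exact hz
      · rw [hπ, zero_pow (by omega), zero_mul, add_zero] at hu
        have : u = 1 := Units.ext hu
        rw [this]
        exact ⟨0, by rw [cup_one, smul_zero]; rfl⟩
  | zero => exact ⟨0, by rw [smul_zero]; rfl⟩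
  | add a b _ _ ha hb =>
    obtain ⟨a', rfl⟩ := ha
    obtain ⟨b', rfl⟩ := hb
    exact ⟨a' + b', by rw [smul_add]; rfl⟩
  | neg a _ ha =>
    obtain ⟨a', rfl⟩ := ha
    exact ⟨-a', by rw [smul_neg]; rfl⟩

/-- Weak approximation at the generic points of the special fibre of the closure of `w`. -/
theorem wa1_pts (f : X ⟶ Spec (CommRingCat.of A)) (π : A) {w x : X}
    (hx : w ⤳ x) [∀ y : X, IsNoetherianRing (X.presheaf.stalk y)] [NoetherianSpace X]
    (hw : ¬ Sp f π w) {q E : ℕ} {ε : A} (hε : IsUnit ε) (hq : (q : A) = ε * π ^ E) (n : ℕ)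
    (hn : 1 ≤ n) (m : ℕ) (y0 : X) (c : MilnorK (kap X w) (m + 1)) :
    ∃ c' : MilnorK (kap X w) (m + 1),
      (∀ (hwy : w ⤳ y0), y0 ⤳ x → GenSp f π w y0 → c' - c ∈ US f π q n (m + 1) hwy) ∧
      ∀ (y : X) (hwy : w ⤳ y), y ⤳ x → y ≠ y0 → GenSp f π w y →
        c' ∈ US f π q n (m + 1) hwy := by
  classical
  have hfin : {y : X | y ⤳ x ∧ GenSp f π w y}.Finite :=
    (genSp_finite f π w).subset fun y hy => hy.2
  obtain ⟨k, y, hinj, hrange⟩ := hfin.fin_param
  have hmem : ∀ i, y i ⤳ x ∧ GenSp f π w (y i) := fun i => by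
    have : y i ∈ Set.range y := ⟨i, rfl⟩
    rwa [hrange] at this
  have hwy : ∀ i, w ⤳ y i := fun i => (hmem i).2.1
  obtain ⟨c', hc'⟩ := ok_WA1 (X.residueField w) (kA f w π) q E (Fin k) (fun i => BB (hwy i))
    (fun i => good_BB ok_GOODE f π (hwy i) hw (hmem i).2 hε hq)
    (approx_BB ok_APX f π hx hw y hinj hwy (fun i => (hmem i).1) (fun i => (hmem i).2)) n hn m
    (fun i => if y i = y0 then c else 0)
  refine ⟨c', ?_, ?_⟩
  · intro h0 h0x hg
    have : y0 ∈ Set.range y := by rw [hrange]; exact ⟨h0x, hg⟩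
    obtain ⟨i, hi⟩ := this
    have h1 := hc' i
    rw [if_pos hi] at h1
    subst hi
    exact h1
  · intro y1 h1 h1x hne hg
    have : y1 ∈ Set.range y := by rw [hrange]; exact ⟨h1x, hg⟩
    obtain ⟨i, hi⟩ := this
    have h2 := hc' i
    rw [if_neg (by rw [hi]; exact hne), sub_zero] at h2
    subst hi
    exact h2

end Pool.Agent.H15.KEW
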