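import Mathlib

/-!
# The dimension of a smooth scheme over a discrete valuation ring
-/

namespace Pool.Agent.H15.KEW

open AlgebraicGeometry CategoryTheory Order

universe u

/-- The Krull dimension does not grow under an étale extension. -/
theorem dim_le_of_etale {T S : Type u} [CommRing T] [CommRing S] (g : T →+* S) (hg : g.Etale) :
    ringKrullDim S ≤ ringKrullDim T := by
  let _ := g.toAlgebra
  have : Algebra.Etale T S := hg
  have : Algebra.QuasiFinite T S := inferInstance
  refine Order.krullDim_le_of_strictMono (PrimeSpectrum.comap (algebraMap T S)) ?_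
  intro P Q hPQ
  refine lt_of_le_of_ne (Ideal.comap_mono hPQ.le) ?_
  intro h
  refine hPQ.ne (PrimeSpectrum.ext ?_)
  exact Algebra.QuasiFinite.eq_of_le_of_under_eq (R := T) P.asIdeal Q.asIdeal hPQ.le
    (congrArg PrimeSpectrum.asIdeal h)

theorem dim_affine_le {Y : Scheme.{u}} {n : ℕ} (hY : ∀ y : Y, coheight y ≤ n) {U : Y.Opens}
    (hU : IsAffineOpen U) : ringKrullDim Γ(Y, U) ≤ n := by
  refine (ringKrullDim_le_iff_isMaximal_height_le (n : WithBot ℕ∞)).mpr fun M hM => ?_
  have h := hY (hU.fromSpec.base ⟨M, hM.isPrime⟩)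
  rw [coheight_eq_of_isOpenImmersion, ← idealHeight_eq_coheight] at h
  exact_mod_cast h

theorem coheight_spec_le {A : Type u} [CommRing A] [IsDomain A] [IsDiscreteValuationRing A]
    (y : Spec (.of A)) : coheight y ≤ (1 : ℕ) := by
  rw [← idealHeight_eq_coheight]
  have h1 := Ideal.height_le_ringKrullDim_of_ne_top (I := y.asIdeal) y.isPrime.ne_top
  have h2 : ringKrullDim A ≤ 1 := by
    exact Ring.krullDimLE_iff.1 inferInstance
  have := h1.trans h2
  exact_mod_cast this

theorem coheight_le_of_smooth {A : Type u} [CommRing A] [IsDomain A] [IsDiscreteValuationRing A]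
    {X : Scheme.{u}} (f : X ⟶ Spec (.of A)) (d : ℕ) [SmoothOfRelativeDimension d f] (x : X) :
    coheight x ≤ d + 1 := by
  obtain ⟨U, hU, V, hV, hx, e, hf⟩ :=
    SmoothOfRelativeDimension.exists_isStandardSmoothOfRelativeDimension (n := d) (f := f) x
  obtain ⟨g, -, hg⟩ := hf.exists_etale_mvPolynomial
  have h1 := dim_le_of_etale g hg
  have hN : IsNoetherianRing Γ(Spec (.of A), U) :=
    IsLocallyNoetherian.component_noetherian ⟨U, hU⟩
  rw [MvPolynomial.ringKrullDim_of_isNoetherianRing] at h1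
  have h2 : ringKrullDim Γ(Spec (.of A), U) ≤ (1 : ℕ) := dim_affine_le coheight_spec_le hU
  obtain ⟨y, hy⟩ : x ∈ Set.range hV.fromSpec := by
    rw [hV.range_fromSpec]; exact hx
  have h3 : y.asIdeal.height ≤ d + 1 := by
    have h4 := Ideal.height_le_ringKrullDim_of_ne_top (I := y.asIdeal) y.isPrime.ne_top
    have h5 := h4.trans h1
    have h6 : (y.asIdeal.height : WithBot ℕ∞) ≤ (1 : ℕ) + (Nat.card (Fin d) : WithBot ℕ∞) :=
      h5.trans (by gcongr)
    rw [Nat.card_fin] at h6
    have h7 : ((1 : ℕ) : WithBot ℕ∞) + (d : WithBot ℕ∞) = ((d + 1 : ℕ∞) : WithBot ℕ∞) := by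
      push_cast; rw [add_comm]
    rw [h7] at h6
    exact_mod_cast h6
  rw [idealHeight_eq_coheight, ← coheight_eq_of_isOpenImmersion hV.fromSpec, hy] at h3
  exact h3

end Pool.Agent.H15.KEW
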