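import Pool.Agent.H15.KEW.G5
import Pool.Agent.H12.KG.Targets2
import Pool.Agent.H15.KEW.Dimx
import Pool.Agent.H84.KEW.Abs
import Pool.Agent.H17.KW.ResMap

/-!
# Assembly: vanishing and the last step at scheme level
-/

namespace Pool.Agent.H15.KEW

open AlgebraicGeometry CategoryTheory TopologicalSpace Pool.Agent.H19.KN IsLocalRing
open Pool.Agent.H62.MK Pool.Agent.H92.KST Pool.Agent.H84.KEW
open Pool.Agent.H17.KW (kap Pts entry column dFam)
open Pool.Agent.H12.KG (Sp GenSp kA stA rho projStr S_LAST)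

universe u

variable {X : Scheme.{u}} {A : Type u} [CommRing A]

/-- In degree zero small symbols are `q`-fold. -/
theorem exists_of_mem_US0 (f : X ⟶ Spec (CommRingCat.of A)) (π : A) (q n : ℕ)
    {v x : X} (h : v ⤳ x) (c : MilnorK (kap X v) 0) (hc : c ∈ US f π q n 0 h) :
    ∃ b, c = q • b := by
  unfold US USub at hc
  induction hc using AddSubgroup.closure_induction with
  | mem z hz => exact hz
  | zero => exact ⟨0, by rw [smul_zero]; rfl⟩
  | add a b _ _ ha hb =>
    obtain ⟨a', rfl⟩ := ha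
    obtain ⟨b', rfl⟩ := hb
    exact ⟨a' + b', by rw [smul_add]; rfl⟩
  | neg a _ ha =>
    obtain ⟨a', rfl⟩ := ha
    exact ⟨-a', by rw [smul_neg]; rfl⟩

theorem isClosed_of_coheight {d : ℕ} (hdim : ∀ x : X, Order.coheight x ≤ d + 1) (x : X)
    (hx : (d : ℕ∞) + 1 ≤ Order.coheight x) : IsClosed ({x} : Set X) := by
  have : closure ({x} : Set X) = {x} := by
    refine Set.Subset.antisymm ?_ subset_closure
    intro y hy
    have hxy : x ⤳ y := specializes_iff_mem_closure.2 hy
    by_contra hne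
    have h1 := coheight_add_one_le hxy (fun e => hne e.symm)
    have h2 : ((d : ℕ∞) + 1) + 1 ≤ d + 1 := (add_le_add_left hx 1).trans (h1.trans (hdim y))
    have h3 : d + 1 + 1 ≤ d + 1 := by exact_mod_cast h2
    omega
  rw [← this]
  exact isClosed_closure

/-- The last step, from the combinatorial theorem of helper12. -/
theorem hlast (hL : S_LAST.{u}) {S : Type u} [IsDomain A] [IsDiscreteValuationRing A]
    [HenselianLocalRing A] [CharZero A] [CommRing S] [Algebra A S] (𝒮 : ℕ → Submodule A S)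
    [GradedAlgebra 𝒮] (hfg : (𝒮 1).FG) (hadj : Algebra.adjoin A (𝒮 1 : Set S) = ⊤)
    [IsNoetherian X] (i : X ⟶ Proj 𝒮) (hi : IsClosedImmersion i) (π : A) (hπ : Irreducible π)
    (p : ℕ) (hp : p.Prime) (ε : A) (e r n : ℕ) (hpe : (p : A) = ε * π ^ e) (hε : IsUnit ε)
    (hr : 1 ≤ r) (hn : 2 * (r * e) + 1 ≤ n) {d : ℕ}
    (hdim : ∀ x : X, Order.coheight x ≤ d + 1)
    (J : Type u) [Finite J] (V : J → Opens X.toTopCat) (hV : ∀ x, ∃ a, x ∈ V a)
    (h : J → Π₀ w : Pts X d 1, KK X d 1 w) (z : Π₀ v : Pts X d 0, KK X d 0 v)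
    (h1 : ∀ a, ∀ x ∈ V a, gen (pt X d 0) (KK X d 0) x (dFam X d 0 (h a) - z) ∈
      PP (i ≫ projStr 𝒮) π (p ^ r) n d 0 x)
    (h2 : ∀ a b, ∀ x, x ∈ V a → x ∈ V b → gen (pt X d 1) (KK X d 1) x (h a - h b) ∈
      PP (i ≫ projStr 𝒮) π (p ^ r) n d 1 x) :
    ∃ (h' : Π₀ w : Pts X d 1, KK X d 1 w) (c' : Π₀ v : Pts X d 0, KK X d 0 v),
      z = dFam X d 0 h' + p ^ r • c' := by
  classical
  set f := i ≫ projStr 𝒮 with hf
  refine hL A S 𝒮 hfg hadj X i hi π hπ p hp ε e r n hpe hε hr hn (Pts X d 1) (Pts X d 0)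
    (fun w => w.1) (fun v => v.1) ?_ ?_ ?_ (dFam X d 0) ?_ ?_ J (fun a => {x : X | x ∈ V a}) ?_ hV h z
    ?_ ?_ ?_
  · intro w y x hwy hyx hne hne'
    obtain ⟨k, hk, hks⟩ := pts_coheight w
    have k1 := coheight_add_one_le hwy (fun e => hne e.symm)
    have k2 := coheight_add_one_le hyx (fun e => hne' e.symm)
    refine isClosed_of_coheight hdim x ?_
    rw [hk] at k1
    have k3 : ((k : ℕ∞) + 1) + 1 ≤ Order.coheight x := (add_le_add_left k1 1).trans k2
    refine le_trans ?_ k3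
    have : d + 1 ≤ k + 1 + 1 := by omega
    exact_mod_cast this
  · intro v x hvx hne
    obtain ⟨k, hk, hks⟩ := pts_coheight v
    have k1 := coheight_add_one_le hvx (fun e => hne e.symm)
    refine isClosed_of_coheight hdim x ?_
    rw [hk] at k1
    refine le_trans ?_ k1
    have : d + 1 ≤ k + 1 := by omega
    exact_mod_cast this
  · intro w v y hwy hyv
    by_contra hc
    push Not at hc
    obtain ⟨k, hk, hks⟩ := pts_coheight w
    obtain ⟨l, hl, hls⟩ := pts_coheight v
    have k1 := coheight_add_one_le hwy (fun e => hc.1 e.symm)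
    have k2 := coheight_add_one_le hyv hc.2
    rw [hk] at k1
    rw [hl] at k2
    have k3 : ((k : ℕ∞) + 1) + 1 ≤ l := (add_le_add_left k1 1).trans k2
    have : k + 1 + 1 ≤ l := by exact_mod_cast k3
    omega
  · intro w c v hne
    exact Pool.Agent.H62.KG.specializes_of_dFam_ne_zero X d 0 w c v hne
  · intro w v hwv u hu hu'
    exact Pool.Agent.H62.KG.dFam_single_integral X d w v hwv u hu hu'
  · intro a x y hx hyx
    exact hyx.mem_open (V a).2 hx
  · intro a v y hy hvy hsp
    rw [← DFinsupp.sub_apply]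
    by_cases hv : Sp f π v.1
    · have hva : (v.1 : X) ∈ V a := hvy.mem_open (V a).2 hy
      have h3 := (gen_mem_US f π (p ^ r) n d 0 _ v.1).1 (h1 a v.1 hva) v specializes_rfl
        (genSp_rfl f π hv)
      exact exists_of_mem_US0 f π (p ^ r) n specializes_rfl _ h3
    · obtain ⟨k, hk, hks⟩ := pts_coheight v
      have hg : GenSp f π v.1 y := by
        refine genSp_of_coheight f π hvy hv hsp hk ?_
        refine (hdim y).trans ?_
        have : d + 1 ≤ k + 1 := by omega
        exact_mod_cast this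
      have h3 := (gen_mem_US f π (p ^ r) n d 0 _ y).1 (h1 a y hy) v hvy hg
      exact exists_of_mem_US0 f π (p ^ r) n hvy _ h3
  · intro a b w y hya hyb hw hg hwy
    have h3 := (gen_mem_US f π (p ^ r) n d 1 _ y).1 (h2 a b y hya hyb) w hwy hg
    rw [DFinsupp.sub_apply] at h3
    exact h3
  · intro a b w hwa hwb hw
    have h3 := (gen_mem_US f π (p ^ r) n d 1 _ w.1).1 (h2 a b w.1 hwa hwb) w specializes_rfl
      (genSp_rfl f π hw)
    rw [DFinsupp.sub_apply] at h3
    exact exists_of_mem_US f π (p ^ r) n 1 (by omega) specializes_rfl hw _ h3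

end Pool.Agent.H15.KEW
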