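import Pool.Agent.H15.KEW.Asm1

/-!
# Assembly: the data of the abstract chase, and injectivity on cycles
-/

namespace Pool.Agent.H15.KEW

open AlgebraicGeometry CategoryTheory TopologicalSpace Opposite Pool.Agent.H19.KN IsLocalRing
open Pool.Agent.H62.MK Pool.Agent.H92.KST Pool.Agent.H84.KEW
open Pool.Agent.H17.KW

universe u

variable {X : Scheme.{u}} {A : Type u} [CommRing A]

/-- The differentials compose to zero. -/
theorem dFam_dFam [IsNoetherian X] {e : ℕ} (h : Gersten X e) (s : ℕ)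
    (c : Π₀ v : Pts X (e + 1) (s + 2), KK X (e + 1) (s + 2) v) :
    dFam X (e + 1) s (dFam X (e + 1) (s + 1) c) = 0 := by
  have h1 := h.w s
  let c' : (D X (e + 1) (s + 2)).obj.obj (op ⊤) :=
    show (E (X := X.toTopCat) (fun v : Pts X (e + 1) (s + 2) => (v.1 : X))
      (fun v => MilnorK (kap X v.1) (s + 2))).sec ⊤ from ⟨c, fun _ hi => absurd trivial hi⟩
  have h2 := congrArg (fun r : D X (e + 1) (s + 2) ⟶ D X (e + 1) s => r.hom.app (op ⊤) c') h1
  have h3 := congrArg Subtype.val h2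
  change keep (pt X (e + 1) s) (KK X (e + 1) s) ⊤ (dFam X (e + 1) s
    (keep (pt X (e + 1) (s + 1)) (KK X (e + 1) (s + 1)) ⊤ (dFam X (e + 1) (s + 1) c))) = 0 at h3
  have h4 : ∀ (t : ℕ) (g : Π₀ v : Pts X (e + 1) t, KK X (e + 1) t v),
      keep (pt X (e + 1) t) (KK X (e + 1) t) ⊤ g = g := by
    intro t g
    refine DFinsupp.ext fun i => ?_
    exact keep_apply_pos (pt X (e + 1) t) g trivial
  rwa [h4, h4] at h3

/-- The data of the abstract chase. -/
theorem data_PP (hS : T_STARX.{u}) (hNAG : T_NAG.{u}) [IsNoetherian X] [IsDomain A]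
    [IsDiscreteValuationRing A] [CharZero A] (f : X ⟶ Spec (CommRingCat.of A))
    [LocallyOfFiniteType f] (π : A) (hπ : Irreducible π) {q E : ℕ} {ε : A} (hε : IsUnit ε)
    (hq : (q : A) = ε * π ^ E) (hq1 : 1 ≤ q) (n : ℕ) (hn : 2 * E + 2 ≤ n) (e : ℕ)
    (hdim : ∀ x : X, Order.coheight x ≤ (e + 1 : ℕ) + 1) :
    Data (X := X.toTopCat) (pt X (e + 1)) (KK X (e + 1)) (dFam X (e + 1))
      (fun s => PP f π q n (e + 1) s) (dl X (e + 1)) e where
  strict := dl_lt hdim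
  fin s c := fin_PP f π q n (e + 1) s c
  ind s _ _ x y0 h0 c := ind_PP f π hε hq n (by omega) (e + 1) s x y0 h0 c
  v1 s _ _ y a hy ha := v1_PP f π hπ hε hq hq1 n (by omega) hdim s y a hy ha
  v2 s hs _ x y0 h0 a hd0 ha := by
    obtain ⟨m, rfl⟩ : ∃ m, s = m + 1 := ⟨s - 1, by omega⟩
    exact v2_PP f π hπ hε hq hq1 n hdim hS hNAG hn m x y0 h0 hd0 a ha

/-- Quasi-sobriety. -/
theorem quasiSober_top (X : Scheme.{u}) : QuasiSober X.toTopCat :=
  inferInstanceAs (QuasiSober X)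

/-- The projection to the quotient complex in top degree. -/
noncomputable abbrev qTop [IsNoetherian X] (f : X ⟶ Spec (CommRingCat.of A)) (π : A) (q n e : ℕ) :=
  qS (X := X.toTopCat) (pt X (e + 1)) (KK X (e + 1)) (dFam X (e + 1))
    (fun s => PP f π q n (e + 1) s) (e + 1)

/-- KILLX: the map from `K^M` to the top quotient sheaf factors through `i_* (K^M / q)`. -/
def T_KILLX : Prop :=
  ∀ (A : Type u) [CommRing A] [IsDomain A] [IsDiscreteValuationRing A] (X : Scheme.{u})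
    [IsNoetherian X] (f : X ⟶ Spec (CommRingCat.of A)) (π : A), Irreducible π →
    ∀ q n e : ℕ, n ≠ 0 → Gersten X e →
    ∃ φ : Fsh f q (e + 1) n ⟶ TS (X := X.toTopCat) (pt X (e + 1)) (KK X (e + 1))
        (dFam X (e + 1)) (fun s => PP f π q n (e + 1) s) (e + 1),
      redSh (thickι f n) q (e + 1) ≫ φ = topSh X (e + 1) ≫ qTop f π q n e

/-- The abstract chase for schemes. -/
theorem chase_PP (hS : T_STARX.{u}) (hNAG : T_NAG.{u}) [IsNoetherian X] [IsDomain A]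
    [IsDiscreteValuationRing A] [CharZero A] (f : X ⟶ Spec (CommRingCat.of A))
    [LocallyOfFiniteType f] (π : A) (hπ : Irreducible π) {q E : ℕ} {ε : A} (hε : IsUnit ε)
    (hq : (q : A) = ε * π ^ E) (hq1 : 1 ≤ q) (n : ℕ) (hn : 2 * E + 2 ≤ n) (e : ℕ)
    (hdim : ∀ x : X, Order.coheight x ≤ (e + 1 : ℕ) + 1) (h : Gersten X e)
    {F : AbSh X} (ρ : KSh X (e + 1) ⟶ F) [Epi ρ]
    (φ : F ⟶ TS (X := X.toTopCat) (pt X (e + 1)) (KK X (e + 1)) (dFam X (e + 1))
      (fun s => PP f π q n (e + 1) s) (e + 1))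
    (hφ : ρ ≫ φ = topSh X (e + 1) ≫ qTop f π q n e)
    (z : Cyc X (e + 1)) (hz : Sheaf.H.map ρ (e + 1) (cycK h z) = 0) :
    ∃ (J : Type u) (_ : Finite J) (V : J → Opens X.toTopCat)
      (h : J → Π₀ w : Pts X (e + 1) 1, KK X (e + 1) 1 w),
      (∀ x, ∃ a, x ∈ V a) ∧
      (∀ a, ∀ x ∈ V a, gen (pt X (e + 1) 0) (KK X (e + 1) 0) x
        (dFam X (e + 1) 0 (h a) - z) ∈ PP f π q n (e + 1) 0 x) ∧
      ∀ a b, ∀ x, x ∈ V a → x ∈ V b →
        gen (pt X (e + 1) 1) (KK X (e + 1) 1) x (h a - h b) ∈ PP f π q n (e + 1) 1 x := by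
  have := quasiSober_top X
  have h0 := data_PP hS hNAG f π hπ hε hq hq1 n hn e hdim
  have h1 := abs_chase_fact (X := X.toTopCat) (pt X (e + 1)) (KK X (e + 1)) (dFam X (e + 1))
    (fun s => isLocalHom_dFam X (e + 1) s) (fun s c => dFam_dFam h s c)
    (fun s => PP f π q n (e + 1) s) h0 h ρ φ hφ (secH X (D X (e + 1) 0) (toSec X (e + 1) z)) hz
  obtain ⟨J, hJ, V, g, g1, g2, g3⟩ := h1
  refine ⟨J, hJ, V, g, g1, fun a x hx => ?_, g3⟩
  have h2 := g2 a x hx
  have h3 : Sheaf.H.equiv₀ (D X (e + 1) 0) (Limits.isTerminalTop (α := Opens X.toTopCat))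
      (secH X (D X (e + 1) 0) (toSec X (e + 1) z)) = toSec X (e + 1) z :=
    AddEquiv.apply_symm_apply _ _
  have h4 := congrArg (fun t : (Pool.Agent.H84.KEW.E (X := X.toTopCat) (fun v : Pts X (e + 1) 0 => (v.1 : X))
    (fun v => MilnorK (kap X v.1) 0)).sec ⊤ => gen (pt X (e + 1) 0) (KK X (e + 1) 0) x
        (dFam X (e + 1) 0 (g a) - t.1)) h3
  exact (congrArg (fun t => t ∈ PP f π q n (e + 1) 0 x) h4).mp h2

end Pool.Agent.H15.KEW
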