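import Pool.Agent.H15.KEW.Asm3
import Pool.Agent.H92.KST.All
import Pool.Agent.H92.KST.KillX

/-!
# Assembly: the theorem from the last step
-/

namespace Pool.Agent.H15.KEW

open AlgebraicGeometry CategoryTheory IsLocalRing Pool.Agent.H17.KW Pool.Agent.H12.KG

universe u

/-- KILLX -/
theorem ok_KILLX : T_KILLX.{u} := by
  intro A _ _ _ X _ f π hπ q n e hn h
  exact Pool.Agent.H92.KST.exists_phi f ((IsDiscreteValuationRing.irreducible_iff_uniformizer π).1
    hπ) hn h

/-- The statement from the last step. -/
theorem statement_of_last (hL : S_LAST.{u}) : Statement.{u} :=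
  statement_of Pool.Agent.H92.KST.ok_STARX Pool.Agent.H92.KST.ok_NAG hL ok_KILLX

end Pool.Agent.H15.KEW
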