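import Pool.Agent.H12.KG.Iface
import Pool.Agent.H19.KN.Defs

/-!
# Project KEW: interface statements of the glue (helper15)
-/

namespace Pool.Agent.H15.KEW

open AlgebraicGeometry CategoryTheory Pool.Agent.H12.KG Pool.Agent.H19.KN Pool.Agent.H62.MK

universe u

/-- The integral closure of the image of `O_{X,x}` in `κ(w)`, as a subring of `κ(w)`. -/
noncomputable def BB {X : Scheme.{u}} {w x : X} (h : w ⤳ x) : Subring (X.residueField w) :=
  icl (rho h).range (X.residueField w)

/-- The map from `O_{X,x}` to the integral closure. -/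
noncomputable def toBB {X : Scheme.{u}} {w x : X} (h : w ⤳ x) : X.presheaf.stalk x →+* BB h :=
  ((rho h).codRestrict (BB h) fun a => by
    show IsIntegral (rho h).range (rho h a)
    exact isIntegral_algebraMap (R := (rho h).range) (A := X.residueField w)
      (x := ⟨rho h a, a, rfl⟩))

/-- NAG: the integral closure of `O_{X,x}` in the residue field of a horizontal point is noetherian,
and all its primes with the same contraction to `O_{X,x}` have the same height. -/
def S_NAG : Prop :=
  ∀ (A S : Type u) [CommRing A] [IsDomain A] [IsDiscreteValuationRing A]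
    [CharZero A] [CommRing S] [Algebra A S] (𝒮 : ℕ → Submodule A S) [GradedAlgebra 𝒮],
    (𝒮 1).FG → Algebra.adjoin A (𝒮 1 : Set S) = ⊤ →
    ∀ (X : Scheme.{u}) (i : X ⟶ Proj 𝒮), IsClosedImmersion i → ∀ π : A, Irreducible π →
    ∀ w x : X, ¬ Sp (i ≫ projStr 𝒮) π w → Sp (i ≫ projStr 𝒮) π x → ∀ h : w ⤳ x,
      IsNoetherianRing (BB h) ∧
      ∀ q q' : Ideal (BB h), q.IsPrime → q'.IsPrime → q.comap (toBB h) = q'.comap (toBB h) →
        q.height = q'.height

end Pool.Agent.H15.KEW
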