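import Pool.Agent.H15.KEW.Tool
import Pool.Agent.H15.KEW.Iface
import Pool.Agent.H19.KN.Targets

/-!
# Horizontal points and generic points of their special fibres
-/

namespace Pool.Agent.H15.KEW

open AlgebraicGeometry CategoryTheory Pool.Agent.H12.KG Pool.Agent.H19.KN IsLocalRing

universe u

variable {X : Scheme.{u}}

/-- Every element of `κ(w)` is a fraction of elements of `O_{X,y}`. -/
theorem exists_frac {w y : X} (h : w ⤳ y) (z : X.residueField w) :
    ∃ a b : X.presheaf.stalk y, rho h b ≠ 0 ∧ rho h b * z = rho h a := by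
  obtain ⟨V, hV, hyV, -⟩ := exists_isAffineOpen_mem_and_subset (X := X) (U := ⊤) (x := y) trivial
  have hwV : w ∈ V := h.mem_open V.isOpen hyV
  obtain ⟨t, rfl⟩ := X.residue_surjective w z
  have := hV.isLocalization_stalk ⟨w, hwV⟩
  let _ := TopCat.Presheaf.algebra_section_stalk X.presheaf ⟨w, hwV⟩
  obtain ⟨⟨a, s⟩, hs⟩ := IsLocalization.surj (hV.primeIdealOf ⟨w, hwV⟩).asIdeal.primeCompl t
  have e1 : ∀ c : Γ(X, V), algebraMap Γ(X, V) (X.presheaf.stalk w) c =
    X.presheaf.germ V w hwV c := fun _ => rfl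
  have e2 : ∀ c : Γ(X, V), X.presheaf.stalkSpecializes h (X.presheaf.germ V y hyV c) =
      X.presheaf.germ V w hwV c := by
    intro c
    have := X.presheaf.germ_stalkSpecializes (U := V) hyV h
    rw [← this]; rfl
  refine ⟨X.presheaf.germ V y hyV a, X.presheaf.germ V y hyV s, ?_, ?_⟩
  · rw [rho_apply, e2]
    have hu : IsUnit (X.presheaf.germ V w hwV (s : Γ(X, V))) := by
      rw [← e1]; exact IsLocalization.map_units (X.presheaf.stalk w) s
    exact (hu.map (X.residue w).hom).ne_zero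
  · rw [rho_apply, rho_apply, e2, e2]
    have : X.presheaf.germ V w hwV (s : Γ(X, V)) * t = X.presheaf.germ V w hwV a := by
      rw [← e1, ← e1, mul_comm]; exact hs
    rw [← this, map_mul]

variable {A : Type u} [CommRing A]

/-- The closure of a horizontal point has dimension one at the generic points of its special
fibre. -/
theorem dim_one (f : X ⟶ Spec (CommRingCat.of A)) (π : A) {w y : X} (h : w ⤳ y)
    [IsNoetherianRing (X.presheaf.stalk y)]
    (hy : GenSp f π w y) (y' : X) (h1 : w ⤳ y') (h2 : y' ⤳ y) : y' = w ∨ y' = y := by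
  by_contra hc
  push Not at hc
  obtain ⟨hc1, hc2⟩ := hc
  set I := RingHom.ker (rho h) with hI
  set m := maximalIdeal (X.presheaf.stalk y) with hm
  have hself : (prm (specializes_rfl (x := y))).asIdeal = m :=
    congrArg PrimeSpectrum.asIdeal (prm_self y)
  have hIp : (prm h).asIdeal = I := rfl
  have hmin : m ∈ (I ⊔ Ideal.span {stA f y π}).minimalPrimes := by
    refine ⟨⟨inferInstance, ?_⟩, ?_⟩
    · refine sup_le (le_maximalIdeal (RingHom.ker_ne_top _)) ?_
      rw [Ideal.span_singleton_le_iff_mem, ← hself]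
      exact (sp_iff f π _).1 hy.2.1
    · rintro Q ⟨hQ, hQle⟩ -
      obtain ⟨y₁, hy₁, e⟩ := exists_prm ⟨Q, hQ⟩
      have e' : (prm hy₁).asIdeal = Q := congrArg PrimeSpectrum.asIdeal e
      have k1 : w ⤳ y₁ := by
        rw [← prm_le_iff h hy₁]
        show (prm h).asIdeal ≤ (prm hy₁).asIdeal
        rw [e', hIp]
        exact le_sup_left.trans hQle
      have k2 : Sp f π y₁ := by
        rw [sp_iff f π hy₁, e']
        exact hQle (Ideal.mem_sup_right (Ideal.mem_span_singleton_self _))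
      have k3 := hy.2.2 y₁ k1 hy₁ k2
      subst k3
      rw [← e', ← hself]
  have hle := Ideal.map_height_le_one_of_mem_minimalPrimes hmin
  set Q := (prm h2).asIdeal with hQ
  have hIQ : I ≤ Q := (prm_le_iff h h2).2 h1
  have hQm : Q ≤ m := by
    rw [← hself]; exact (prm_le_iff h2 specializes_rfl).2 h2
  have hIQ' : I ≠ Q := by
    intro e
    exact hc1 (prm_inj h h2 (PrimeSpectrum.ext e)).symm
  have hQm' : Q ≠ m := by
    intro e
    exact hc2 (prm_inj h2 specializes_rfl (PrimeSpectrum.ext (e.trans hself.symm)))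
  have hsurj := Ideal.Quotient.mk_surjective (I := I)
  have hIpr : I.IsPrime := RingHom.ker_isPrime _
  have hker : RingHom.ker (Ideal.Quotient.mk I) = I := Ideal.mk_ker
  have hQ1 : (Q.map (Ideal.Quotient.mk I)).IsPrime :=
    Ideal.map_isPrime_of_surjective hsurj (hker.le.trans hIQ)
  have hm1 : (m.map (Ideal.Quotient.mk I)).IsPrime :=
    Ideal.map_isPrime_of_surjective hsurj (hker.le.trans (hIQ.trans hQm))
  have hcm : ∀ J : Ideal (X.presheaf.stalk y), I ≤ J →
      (J.map (Ideal.Quotient.mk I)).comap (Ideal.Quotient.mk I) = J := fun J hJ => by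
    rw [Ideal.comap_map_of_surjective _ hsurj, ← RingHom.ker_eq_comap_bot, hker]
    exact sup_eq_left.2 hJ
  have l1 : Q.map (Ideal.Quotient.mk I) < m.map (Ideal.Quotient.mk I) := by
    refine lt_of_le_of_ne (Ideal.map_mono hQm) fun e => hQm' ?_
    rw [← hcm Q hIQ, ← hcm m (hIQ.trans hQm), e]
  have l0 : (⊥ : Ideal (X.presheaf.stalk y ⧸ I)) < Q.map (Ideal.Quotient.mk I) := by
    refine bot_lt_iff_ne_bot.2 fun e => hIQ' ?_
    rw [← hcm Q hIQ, e, ← RingHom.ker_eq_comap_bot, hker]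
  have hdom : IsDomain (X.presheaf.stalk y ⧸ I) := Ideal.Quotient.isDomain I
  have b0 := Ideal.height_add_one_le_of_lt_of_isPrime l0
  have b1 := Ideal.height_add_one_le_of_lt_of_isPrime l1
  rw [Ideal.height_bot, zero_add] at b0
  have : (1 : ℕ∞) + 1 ≤ 1 := (add_le_add_left b0 1).trans (b1.trans hle)
  exact absurd this (by decide)

/-- Every element of `O_{X,y}` is a fraction of elements of `O_{X,x}`. -/
theorem exists_frac_stalk {y x : X} (h : y ⤳ x) (t : X.presheaf.stalk y) :
    ∃ a b : X.presheaf.stalk x, IsUnit (X.presheaf.stalkSpecializes h b) ∧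
      X.presheaf.stalkSpecializes h b * t = X.presheaf.stalkSpecializes h a := by
  obtain ⟨V, hV, hxV, -⟩ := exists_isAffineOpen_mem_and_subset (X := X) (U := ⊤) (x := x) trivial
  have hyV : y ∈ V := h.mem_open V.isOpen hxV
  have := hV.isLocalization_stalk ⟨y, hyV⟩
  let _ := TopCat.Presheaf.algebra_section_stalk X.presheaf ⟨y, hyV⟩
  obtain ⟨⟨a, s⟩, hs⟩ := IsLocalization.surj (hV.primeIdealOf ⟨y, hyV⟩).asIdeal.primeCompl t
  have e1 : ∀ c : Γ(X, V), algebraMap Γ(X, V) (X.presheaf.stalk y) c =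
    X.presheaf.germ V y hyV c := fun _ => rfl
  have e2 : ∀ c : Γ(X, V), X.presheaf.stalkSpecializes h (X.presheaf.germ V x hxV c) =
      X.presheaf.germ V y hyV c := by
    intro c
    have := X.presheaf.germ_stalkSpecializes (U := V) hxV h
    rw [← this]; rfl
  refine ⟨X.presheaf.germ V x hxV a, X.presheaf.germ V x hxV s, ?_, ?_⟩
  · rw [e2, ← e1]; exact IsLocalization.map_units (X.presheaf.stalk y) s
  · rw [e2, e2, ← e1, ← e1, mul_comm]; exact hs

/-- At a generic point of the special fibre `κ(w) = O[1/π]`. -/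
theorem frac_pi (f : X ⟶ Spec (CommRingCat.of A)) (π : A) {w y : X} (h : w ⤳ y)
    [IsNoetherianRing (X.presheaf.stalk y)] (hy : GenSp f π w y)
    (z : X.residueField w) : ∃ k : ℕ, kA f w π ^ k * z ∈ (rho h).range := by
  obtain ⟨a, b, hb, hab⟩ := exists_frac h z
  have hrad : stA f y π ∈ (RingHom.ker (rho h) ⊔ Ideal.span {b}).radical := by
    rw [Ideal.radical_eq_sInf, Ideal.mem_sInf]
    rintro Q ⟨hQle, hQ⟩
    obtain ⟨y₁, hy₁, e⟩ := exists_prm ⟨Q, hQ⟩
    have e' : (prm hy₁).asIdeal = Q := congrArg PrimeSpectrum.asIdeal e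
    have k1 : w ⤳ y₁ := by
      rw [← prm_le_iff h hy₁]
      show (prm h).asIdeal ≤ (prm hy₁).asIdeal
      rw [e']
      exact le_sup_left.trans hQle
    rcases dim_one f π h hy y₁ k1 hy₁ with rfl | rfl
    · exfalso
      apply hb
      have : b ∈ Q := hQle (Ideal.mem_sup_right (Ideal.mem_span_singleton_self _))
      rw [← e'] at this
      exact this
    · rw [← e', ← sp_iff f π]
      exact hy.2.1
  obtain ⟨k, hk⟩ := hrad
  obtain ⟨i, hi, j, hj, hij⟩ := Submodule.mem_sup.1 hk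
  obtain ⟨c, rfl⟩ := Ideal.mem_span_singleton'.1 hj
  refine ⟨k, c * a, ?_⟩
  have e1 := congrArg (rho h) hij
  rw [map_add, map_pow, rho_stA, (RingHom.mem_ker).1 hi, zero_add, map_mul] at e1
  rw [← e1, mul_assoc, hab, map_mul]

/-- At a generic point of the special fibre a power of the maximal ideal is divisible by a given
power of `π`. -/
theorem pow_le (f : X ⟶ Spec (CommRingCat.of A)) (π : A) {w y : X} (h : w ⤳ y)
    [IsNoetherianRing (X.presheaf.stalk y)] (hy : GenSp f π w y) (N : ℕ) :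
    ∃ M : ℕ, ∀ a ∈ maximalIdeal (X.presheaf.stalk y) ^ M, ∃ c : X.presheaf.stalk y,
      rho h a = kA f w π ^ N * rho h c := by
  have hle : maximalIdeal (X.presheaf.stalk y) ≤
      (RingHom.ker (rho h) ⊔ Ideal.span {stA f y π ^ N}).radical := by
    rw [Ideal.radical_eq_sInf]
    refine le_sInf ?_
    rintro Q ⟨hQle, hQ⟩
    obtain ⟨y₁, hy₁, e⟩ := exists_prm ⟨Q, hQ⟩
    have e' : (prm hy₁).asIdeal = Q := congrArg PrimeSpectrum.asIdeal e
    have k1 : w ⤳ y₁ := by
      rw [← prm_le_iff h hy₁]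
      show (prm h).asIdeal ≤ (prm hy₁).asIdeal
      rw [e']
      exact le_sup_left.trans hQle
    have k2 : Sp f π y₁ := by
      rw [sp_iff f π hy₁, e']
      exact hQ.mem_of_pow_mem N (hQle (Ideal.mem_sup_right (Ideal.mem_span_singleton_self _)))
    have k3 := hy.2.2 y₁ k1 hy₁ k2
    subst k3
    rw [← e', congrArg PrimeSpectrum.asIdeal (prm_self y₁)]
    exact le_rfl
  obtain ⟨M, hM⟩ := Ideal.exists_pow_le_of_le_radical_of_fg hle (IsNoetherian.noetherian _)
  refine ⟨M, fun a ha => ?_⟩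
  obtain ⟨i, hi, j, hj, hij⟩ := Submodule.mem_sup.1 (hM ha)
  obtain ⟨c, rfl⟩ := Ideal.mem_span_singleton'.1 hj
  refine ⟨c, ?_⟩
  rw [← hij, map_add, (RingHom.mem_ker).1 hi, zero_add, map_mul, map_pow, rho_stA, mul_comm]

theorem kA_mem (f : X ⟶ Spec (CommRingCat.of A)) {w y : X} (h : w ⤳ y) (a : A) :
    kA f w a ∈ (rho h).range := ⟨stA f y a, rho_stA f h a⟩

/-- The image of `O_{X,y}` in `κ(w)` at a generic point of the special fibre. -/
theorem good_range (f : X ⟶ Spec (CommRingCat.of A)) (π : A) {w y : X} (h : w ⤳ y)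
    [IsNoetherianRing (X.presheaf.stalk y)] (hw : ¬ Sp f π w) (hy : GenSp f π w y)
    {q E : ℕ} {ε : A} (hε : IsUnit ε) (hq : (q : A) = ε * π ^ E) :
    Good (rho h).range (kA f w π) q E where
  pi_mem := kA_mem f h π
  pi_ne := fun e => hw ((sp_iff' f π w).2 e)
  jac := by
    rintro _ ⟨a, rfl⟩
    have hu : IsUnit (1 + stA f y π * a) := by
      by_contra hc
      have h1 : 1 + stA f y π * a ∈ maximalIdeal (X.presheaf.stalk y) :=
        (mem_maximalIdeal _).2 hc
      have h2 : stA f y π ∈ maximalIdeal (X.presheaf.stalk y) := (mem_maximalIdeal _).2 hy.2.1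
      have h3 : (1 : X.presheaf.stalk y) ∈ maximalIdeal (X.presheaf.stalk y) := by
        have := Ideal.sub_mem _ h1 (Ideal.mul_mem_right a _ h2)
        rwa [add_sub_cancel_right] at this
      exact (maximalIdeal.isMaximal _).ne_top ((Ideal.eq_top_iff_one _).2 h3)
    obtain ⟨u, hu⟩ := hu
    refine ⟨rho h (↑u⁻¹ : X.presheaf.stalk y), ⟨_, rfl⟩, ?_⟩
    rw [← rho_stA f h, ← map_mul, ← map_one (rho h), ← map_add, ← map_mul, ← hu, Units.mul_inv]
  qeq := by
    obtain ⟨u, rfl⟩ := hε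
    refine ⟨kA f w u, kA_mem f h _, kA f w (↑u⁻¹ : A), kA_mem f h _, ?_, ?_⟩
    · rw [← map_mul, Units.mul_inv, map_one]
    · rw [← map_pow, ← map_mul, ← hq, map_natCast]
  frac := frac_pi f π h hy

theorem range_le_BB {w y : X} (h : w ⤳ y) : (rho h).range ≤ BB h := by
  intro a ha
  exact isIntegral_algebraMap (R := (rho h).range) (A := X.residueField w) (x := ⟨a, ha⟩)

/-- `B_y(w)` at a generic point of the special fibre. -/
theorem good_BB (hG : T_GOODE.{u}) (f : X ⟶ Spec (CommRingCat.of A)) (π : A) {w y : X} (h : w ⤳ y)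
    [IsNoetherianRing (X.presheaf.stalk y)] (hw : ¬ Sp f π w) (hy : GenSp f π w y)
    {q E : ℕ} {ε : A} (hε : IsUnit ε) (hq : (q : A) = ε * π ^ E) :
    Good (BB h) (kA f w π) q E :=
  (hG (X.residueField w) (rho h).range (kA f w π) q E (good_range f π h hw hy hε hq)
    (X.residueField w) inferInstance).1

/-- The ideal of `y` in the image of `O_{X,x}` in `κ(w)`. -/
noncomputable def QQ' {w y x : X} (hx : w ⤳ x) (hyx : y ⤳ x) : Ideal (rho hx).range :=
  (prm hyx).asIdeal.map (rho hx).rangeRestrict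

theorem mem_QQ' {w y x : X} (hx : w ⤳ x) (hyx : y ⤳ x) (hwy : w ⤳ y) (a : X.presheaf.stalk x) :
    (rho hx).rangeRestrict a ∈ QQ' hx hyx ↔ a ∈ (prm hyx).asIdeal := by
  have hsurj := (rho hx).rangeRestrict_surjective
  have hker : RingHom.ker (rho hx).rangeRestrict = RingHom.ker (rho hx) := by
    ext b; simp [RingHom.mem_ker]
  have hle : RingHom.ker (rho hx) ≤ (prm hyx).asIdeal := (prm_le_iff hx hyx).2 hwy
  have : (QQ' hx hyx).comap (rho hx).rangeRestrict = (prm hyx).asIdeal := by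
    unfold QQ'
    rw [Ideal.comap_map_of_surjective _ hsurj, ← RingHom.ker_eq_comap_bot, hker]
    exact sup_eq_left.2 hle
  rw [← this, Ideal.mem_comap]

theorem QQ'_prime {w y x : X} (hx : w ⤳ x) (hyx : y ⤳ x) (hwy : w ⤳ y) :
    (QQ' hx hyx).IsPrime := by
  have hsurj := (rho hx).rangeRestrict_surjective
  have hker : RingHom.ker (rho hx).rangeRestrict = RingHom.ker (rho hx) := by
    ext b; simp [RingHom.mem_ker]
  have hle : RingHom.ker (rho hx) ≤ (prm hyx).asIdeal := (prm_le_iff hx hyx).2 hwy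
  exact Ideal.map_isPrime_of_surjective hsurj (hker.le.trans hle)

/-- The image of `O_{X,y}` is the localisation of the image of `O_{X,x}`. -/
theorem mem_range_iff {w y x : X} (hx : w ⤳ x) (hyx : y ⤳ x) (hwy : w ⤳ y)
    (z : X.residueField w) : z ∈ (rho hwy).range ↔ LocMem (rho hx).range (QQ' hx hyx) z := by
  constructor
  · rintro ⟨t, rfl⟩
    obtain ⟨a, b, hb, hab⟩ := exists_frac_stalk hyx t
    refine ⟨(rho hx).rangeRestrict b, ?_, ?_⟩
    · rw [mem_QQ' hx hyx hwy]
      intro hb'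
      have h1 : rho hyx b = 0 := hb'
      rw [rho_apply] at h1
      exact (hb.map (X.residue y).hom).ne_zero h1
    · refine ⟨a, ?_⟩
      show rho hx a = rho hx b * rho hwy t
      rw [← rho_comp hwy hyx, ← rho_comp hwy hyx, ← map_mul, hab]
  · rintro ⟨s, hs, hsz⟩
    obtain ⟨⟨_, b, rfl⟩, rfl⟩ : ∃ s' : (rho hx).range, s' = s := ⟨s, rfl⟩
    obtain ⟨a, ha⟩ := hsz
    have hb : b ∉ (prm hyx).asIdeal := fun hb' => hs ((mem_QQ' hx hyx hwy b).2 hb')
    have hu : IsUnit (X.presheaf.stalkSpecializes hyx b) := by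
      by_contra hc
      apply hb
      show rho hyx b = 0
      rw [rho_apply]
      exact (IsLocalRing.residue_eq_zero_iff _).2 ((mem_maximalIdeal _).2 hc)
    obtain ⟨u, hu⟩ := hu
    refine ⟨(↑u⁻¹ : X.presheaf.stalk y) * X.presheaf.stalkSpecializes hyx a, ?_⟩
    have e1 : rho hwy (u : X.presheaf.stalk y) = rho hx b := by rw [hu, rho_comp hwy hyx]
    have e2 : rho hwy (X.presheaf.stalkSpecializes hyx a) = rho hx b * z := by
      rw [rho_comp hwy hyx]; exact ha
    rw [map_mul, e2, ← e1, ← mul_assoc, ← map_mul, Units.inv_mul, map_one, one_mul]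

theorem map_pow_QQ' {w y x : X} (hx : w ⤳ x) (hyx : y ⤳ x) (hwy : w ⤳ y) (M : ℕ)
    (r : (rho hx).range) (hr : r ∈ QQ' hx hyx ^ M) :
    ∃ a ∈ maximalIdeal (X.presheaf.stalk y) ^ M, rho hwy a = (r : X.residueField w) := by
  have h1 : QQ' hx hyx ^ M = ((prm hyx).asIdeal ^ M).map (rho hx).rangeRestrict := by
    unfold QQ'
    rw [Ideal.map_pow]
  rw [h1, Ideal.mem_map_iff_of_surjective _ (rho hx).rangeRestrict_surjective] at hr
  obtain ⟨b, hb, rfl⟩ := hr
  refine ⟨X.presheaf.stalkSpecializes hyx b, ?_, rho_comp hwy hyx b⟩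
  have h2 : (prm hyx).asIdeal.map (X.presheaf.stalkSpecializes hyx).hom ≤
      maximalIdeal (X.presheaf.stalk y) := by
    rw [Ideal.map_le_iff_le_comap]
    intro c hc
    have h3 : rho hyx c = 0 := hc
    rw [rho_apply] at h3
    exact (IsLocalRing.residue_eq_zero_iff _).1 h3
  have h4 := Ideal.mem_map_of_mem (X.presheaf.stalkSpecializes hyx).hom hb
  rw [Ideal.map_pow] at h4
  exact Ideal.pow_right_mono h2 M h4

/-- The approximation property at finitely many generic points of the special fibre. -/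
theorem approx_BB (hA : T_APX.{u}) (f : X ⟶ Spec (CommRingCat.of A)) (π : A) {w x : X}
    (hx : w ⤳ x) [∀ y : X, IsNoetherianRing (X.presheaf.stalk y)] (hw : ¬ Sp f π w) {k : ℕ}
    (y : Fin k → X) (hinj : Function.Injective y) (hwy : ∀ i, w ⤳ y i) (hyx : ∀ i, y i ⤳ x)
    (hy : ∀ i, GenSp f π w (y i)) :
    Approx (kA f w π) (fun i => BB (hwy i)) := by
  have key : Approx (kA f w π) (fun i => (rho (hwy i)).range) := by
    refine hA (X.residueField w) (rho hx).range (kA f w π) (Fin k) (fun i => QQ' hx (hyx i))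
      (fun i => (rho (hwy i)).range) (fun i => QQ'_prime hx (hyx i) (hwy i)) ?_
      (fun i z => mem_range_iff hx (hyx i) (hwy i) z)
      (fun i z => frac_pi f π (hwy i) (hy i) z) (fun e => hw ((sp_iff' f π w).2 e)) ?_
    · intro i j hij hle
      apply hij
      apply hinj
      have h1 : y i ⤳ y j := by
        rw [← prm_le_iff (hyx i) (hyx j)]
        intro a ha
        exact (mem_QQ' hx (hyx j) (hwy j) a).1 (hle ((mem_QQ' hx (hyx i) (hwy i) a).2 ha))
      exact (hy j).2.2 (y i) (hwy i) h1 (hy i).2.1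
    · intro i N
      obtain ⟨M, hM⟩ := pow_le f π (hwy i) (hy i) N
      refine ⟨M, fun r hr => ?_⟩
      obtain ⟨a, ha, har⟩ := map_pow_QQ' hx (hyx i) (hwy i) M r hr
      obtain ⟨c, hc⟩ := hM a ha
      exact ⟨rho (hwy i) c, ⟨c, rfl⟩, by rw [← har, hc]⟩
  intro g N
  obtain ⟨g', hg'⟩ := key g N
  refine ⟨g', fun i => ?_⟩
  obtain ⟨c, hc, e⟩ := hg' i
  exact ⟨c, range_le_BB (hwy i) hc, e⟩

end Pool.Agent.H15.KEW
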