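import Pool.Agent.H15.KEW.G1
import Pool.Agent.H92.KST.TargetsX
import Pool.Agent.H62.MK.TQ

/-!
# STAR at the points of a scheme
-/

namespace Pool.Agent.H15.KEW

open AlgebraicGeometry CategoryTheory Pool.Agent.H12.KG Pool.Agent.H19.KN IsLocalRing
open Pool.Agent.H62.MK Pool.Agent.H92.KST

universe u

variable {X : Scheme.{u}}

theorem exists_QQ' {w x : X} (hx : w ⤳ x) (P : Ideal (rho hx).range) (hP : P.IsPrime) :
    ∃ (z : X) (hzx : z ⤳ x), w ⤳ z ∧ QQ' hx hzx = P := by
  obtain ⟨z, hzx, e⟩ := exists_prm ⟨P.comap (rho hx).rangeRestrict, hP.comap _⟩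
  have e' : (prm hzx).asIdeal = P.comap (rho hx).rangeRestrict :=
    congrArg PrimeSpectrum.asIdeal e
  refine ⟨z, hzx, ?_, ?_⟩
  · rw [← prm_le_iff hx hzx]
    show (prm hx).asIdeal ≤ (prm hzx).asIdeal
    rw [e']
    intro a ha
    have h0 : rho hx a = 0 := ha
    have : (rho hx).rangeRestrict a = 0 := Subtype.ext h0
    rw [Ideal.mem_comap, this]
    exact P.zero_mem
  · unfold QQ'
    rw [e']
    exact Ideal.map_comap_of_surjective _ (rho hx).rangeRestrict_surjective P

theorem QQ'_le_iff {w x z z' : X} (hx : w ⤳ x) (hzx : z ⤳ x) (hzx' : z' ⤳ x) (hwz : w ⤳ z)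
    (hwz' : w ⤳ z') : QQ' hx hzx ≤ QQ' hx hzx' ↔ z ⤳ z' := by
  rw [← prm_le_iff hzx hzx']
  constructor
  · intro hle a ha
    exact (mem_QQ' hx hzx' hwz' a).1 (hle ((mem_QQ' hx hzx hwz a).2 ha))
  · intro hle
    exact Ideal.map_mono hle

theorem QQ'_inj {w x z z' : X} (hx : w ⤳ x) (hzx : z ⤳ x) (hzx' : z' ⤳ x) (hwz : w ⤳ z)
    (hwz' : w ⤳ z') (e : QQ' hx hzx = QQ' hx hzx') : z = z' :=
  (((QQ'_le_iff hx hzx hzx' hwz hwz').1 e.le).antisymm
    ((QQ'_le_iff hx hzx' hzx hwz' hwz).1 e.ge)).eq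

theorem QQ'_self {w x : X} (hx : w ⤳ x) : QQ' hx hx = ⊥ := by
  rw [eq_bot_iff]
  intro r hr
  obtain ⟨a, rfl⟩ := (rho hx).rangeRestrict_surjective r
  have := (mem_QQ' hx hx specializes_rfl a).1 hr
  exact Subtype.ext this

variable {A : Type u} [CommRing A]

theorem pi_mem_QQ' (f : X ⟶ Spec (CommRingCat.of A)) (π : A) {w x z : X} (hx : w ⤳ x)
    (hzx : z ⤳ x) (hwz : w ⤳ z) (h : kA f w π ∈ (rho hx).range) :
    (⟨kA f w π, h⟩ : (rho hx).range) ∈ QQ' hx hzx ↔ Sp f π z := by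
  have e : (⟨kA f w π, h⟩ : (rho hx).range) = (rho hx).rangeRestrict (stA f x π) :=
    Subtype.ext (rho_stA f hx π).symm
  rw [e, mem_QQ' hx hzx hwz, sp_iff f π hzx]

theorem le_iff_specializes' (x y : X) : x ≤ y ↔ y ⤳ x := Scheme.le_iff_specializes

theorem coheight_add_one_le {z z' : X} (h : z' ⤳ z) (hne : z' ≠ z) :
    Order.coheight z' + 1 ≤ Order.coheight z := by
  refine Order.coheight_add_one_le ?_
  refine lt_iff_le_not_ge.2 ⟨(le_iff_specializes' z z').2 h, fun h2 => hne ?_⟩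
  exact (h.antisymm ((le_iff_specializes' z' z).1 h2)).eq

theorem coheight_mono' {z z' : X} (h : z' ⤳ z) : Order.coheight z' ≤ Order.coheight z :=
  Order.coheight_anti ((le_iff_specializes' z z').2 h)

/-- The height of the prime of `z` in the image of `O_{X,x}` in `κ(w)`. -/
theorem height_QQ'_le {w x : X} (hx : w ⤳ x) (hfin : Order.coheight w ≠ ⊤) :
    ∀ (k : ℕ) (z : X) (hzx : z ⤳ x), w ⤳ z →
      Order.coheight z ≤ Order.coheight w + k → (QQ' hx hzx).height ≤ k := by
  intro k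
  induction k with
  | zero =>
    intro z hzx hwz hle
    have := QQ'_prime hx hzx hwz
    rw [Ideal.height_le_iff]
    intro q hq hlt
    exfalso
    obtain ⟨z', hzx', hwz', rfl⟩ := exists_QQ' hx q hq
    have h1 : z' ⤳ z := (QQ'_le_iff hx hzx' hzx hwz' hwz).1 hlt.le
    have h2 : z' ≠ z := by rintro rfl; exact lt_irrefl _ hlt
    have h3 := coheight_add_one_le h1 h2
    have h4 := coheight_mono' hwz'
    have h5 : Order.coheight w + 1 ≤ Order.coheight w := by
      have := (add_le_add_left h4 1).trans (h3.trans hle)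
      simpa using this
    exact absurd h5 (not_le.2 (ENat.lt_add_one_iff hfin |>.2 le_rfl))
  | succ k ih =>
    intro z hzx hwz hle
    have := QQ'_prime hx hzx hwz
    rw [Ideal.height_le_iff]
    intro q hq hlt
    obtain ⟨z', hzx', hwz', rfl⟩ := exists_QQ' hx q hq
    have h1 : z' ⤳ z := (QQ'_le_iff hx hzx' hzx hwz' hwz).1 hlt.le
    have h2 : z' ≠ z := by rintro rfl; exact lt_irrefl _ hlt
    have h3 := coheight_add_one_le h1 h2
    have h4 : Order.coheight z' ≤ Order.coheight w + k := by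
      have h5 : Order.coheight z' + 1 ≤ (Order.coheight w + k) + 1 := by
        refine h3.trans (hle.trans ?_)
        push_cast
        rw [add_assoc]
      exact (ENat.add_le_add_iff_right (by simp)).1 h5
    refine lt_of_le_of_lt (ih z' hzx' hwz' h4) ?_
    exact_mod_cast Nat.lt_succ_self k

/-- At a generic point of the special fibre the height is at most one. -/
theorem height_QQ'_le_one (f : X ⟶ Spec (CommRingCat.of A)) (π : A) {w x : X} (hx : w ⤳ x)
    (z : X) (hzx : z ⤳ x) [IsNoetherianRing (X.presheaf.stalk z)] (hz : GenSp f π w z) :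
    (QQ' hx hzx).height ≤ 1 := by
  have hwz := hz.1
  have := QQ'_prime hx hzx hwz
  have key : (QQ' hx hzx).height ≤ (1 : ℕ) := by
    rw [Ideal.height_le_iff]
    intro q hq hlt
    obtain ⟨z', hzx', hwz', rfl⟩ := exists_QQ' hx q hq
    have h1 : z' ⤳ z := (QQ'_le_iff hx hzx' hzx hwz' hwz).1 hlt.le
    have h2 : z' ≠ z := by rintro rfl; exact lt_irrefl _ hlt
    rcases dim_one f π hwz hz z' hwz' h1 with rfl | h
    · have : (QQ' hx hzx').height = 0 := by
        have e : QQ' hx hzx' = ⊥ := QQ'_self hx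
        rw [e, Ideal.height_bot]
      rw [this]; norm_num
    · exact absurd h h2
  exact_mod_cast key

/-- Heights do not grow under contraction along an integral extension. -/
theorem height_le_comap {R S : Type u} [CommRing R] [CommRing S] [Algebra R S]
    [Algebra.IsIntegral R S] (Q : Ideal S) [Q.IsPrime] :
    Q.height ≤ (Q.comap (algebraMap R S)).height := by
  have hs : StrictMono (PrimeSpectrum.comap (algebraMap R S)) := by
    intro P P' hlt
    have h1 : P.asIdeal < P'.asIdeal := hlt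
    obtain ⟨x, hx', hx⟩ := SetLike.exists_of_lt h1
    have := Ideal.comap_lt_comap_of_integral_mem_sdiff h1.le ⟨hx', hx⟩
      (Algebra.IsIntegral.isIntegral (R := R) x)
    exact this
  have h := Order.height_le_height_apply_of_strictMono _ hs ⟨Q, inferInstance⟩
  rw [← PrimeSpectrum.height_eq_orderHeight, ← PrimeSpectrum.height_eq_orderHeight] at h
  exact h

section YO

variable (f : X ⟶ Spec (CommRingCat.of A)) (π : A) {w x : X} (hx : w ⤳ x)

theorem exists_over (O : Subring (X.residueField w)) (P : Ideal O) [P.IsPrime] :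
    ∃ Q : Ideal (integralClosure O (X.residueField w)), Q ∈ Over O P := by
  obtain ⟨Q, hQ, hQ2⟩ := Ideal.exists_ideal_over_prime_of_isIntegral_of_isDomain
    (S := integralClosure O (X.residueField w)) P (by
      have : Function.Injective (algebraMap O (integralClosure O (X.residueField w))) := by
        intro a b hab
        have := congrArg (fun t : integralClosure O (X.residueField w) =>
          (t : X.residueField w)) hab
        exact Subtype.ext this
      rw [(RingHom.injective_iff_ker_eq_bot _).1 this]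
      exact bot_le)
  exact ⟨Q, hQ, hQ2⟩

/-- A prime over a prime containing `π` has positive height. -/
theorem one_le_height (O : Subring (X.residueField w)) (P : Ideal O) (hP : P ≠ ⊥)
    (Q : Ideal (integralClosure O (X.residueField w))) (hQ : Q ∈ Over O P) : 1 ≤ Q.height := by
  have := hQ.1
  have hne : Q ≠ ⊥ := by
    rintro rfl
    apply hP
    rw [← hQ.2, eq_bot_iff]
    intro a ha
    have h1 : algebraMap O (integralClosure O (X.residueField w)) a = 0 := ha
    have h2 := congrArg (fun t : integralClosure O (X.residueField w) =>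
          (t : X.residueField w)) h1
    exact Subtype.ext h2
  rw [Order.one_le_iff_ne_zero, Ne, Ideal.height_eq_zero_iff_eq_bot]
  exact hne

theorem QQ'_ne_bot (hw : ¬ Sp f π w) {z : X} (hzx : z ⤳ x) (hwz : w ⤳ z) (hz : Sp f π z) :
    QQ' hx hzx ≠ ⊥ := by
  intro e
  have h1 := (pi_mem_QQ' f π hx hzx hwz (kA_mem f hx π)).2 hz
  rw [e] at h1
  have h2 : (⟨kA f w π, kA_mem f hx π⟩ : (rho hx).range) = 0 := h1
  exact hw ((sp_iff' f π w).2 (congrArg Subtype.val h2))

theorem mem_YO_one (hw : ¬ Sp f π w) {z : X} (hzx : z ⤳ x)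
    [IsNoetherianRing (X.presheaf.stalk z)] (hz : GenSp f π w z) :
    QQ' hx hzx ∈ YO (rho hx).range (kA f w π) 1 := by
  have hp := QQ'_prime hx hzx hz.1
  obtain ⟨Q, hQ⟩ := exists_over (rho hx).range (QQ' hx hzx)
  refine ⟨hp, ⟨kA_mem f hx π, (pi_mem_QQ' f π hx hzx hz.1 _).2 hz.2.1⟩, Q, hQ, ?_⟩
  refine le_antisymm ?_ (one_le_height _ _ (QQ'_ne_bot f π hx hw hzx hz.1 hz.2.1) Q hQ)
  have := hQ.1
  have h := height_le_comap (R := (rho hx).range) Q
  rw [hQ.2] at h
  exact h.trans (height_QQ'_le_one f π hx z hzx hz)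

/-- If `z` is not generic there is a prime of height at least two over it. -/
theorem exists_two_le (hw : ¬ Sp f π w) {z : X} (hzx : z ⤳ x) (hwz : w ⤳ z) (hz : Sp f π z)
    (hz' : ¬ GenSp f π w z) : ∃ Q ∈ Over (rho hx).range (QQ' hx hzx), 2 ≤ Q.height := by
  have hex : ∃ y : X, w ⤳ y ∧ y ⤳ z ∧ Sp f π y ∧ y ≠ z := by
    by_contra hc
    push Not at hc
    exact hz' ⟨hwz, hz, fun y h1 h2 h3 => hc y h1 h2 h3⟩
  obtain ⟨y, hwy, hyz, hy, hne⟩ := hex
  have hyx : y ⤳ x := hyz.trans hzx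
  have hpy := QQ'_prime hx hyx hwy
  have hpz := QQ'_prime hx hzx hwz
  obtain ⟨Q', hQ'⟩ := exists_over (rho hx).range (QQ' hx hyx)
  have hQ'p := hQ'.1
  have hle : QQ' hx hyx ≤ QQ' hx hzx := (QQ'_le_iff hx hyx hzx hwy hwz).2 hyz
  obtain ⟨Q, hge, hQp, hQ⟩ := Ideal.exists_ideal_over_prime_of_isIntegral (R := (rho hx).range)
    (QQ' hx hzx) Q' (hQ'.2.le.trans hle)
  refine ⟨Q, ⟨hQp, hQ⟩, ?_⟩
  have hlt : Q' < Q := by
    refine lt_of_le_of_ne hge ?_
    rintro rfl
    exact hne (QQ'_inj hx hyx hzx hwy hwz (hQ'.2.symm.trans hQ))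
  have h1 := one_le_height _ _ (QQ'_ne_bot f π hx hw hyx hwy hy) Q' hQ'
  have h2 := Ideal.height_add_one_le_of_lt_of_isPrime hlt
  calc (2 : ℕ∞) = 1 + 1 := by norm_num
    _ ≤ Q'.height + 1 := by gcongr
    _ ≤ Q.height := h2

theorem mem_YO_two (hw : ¬ Sp f π w) {z : X} (hzx : z ⤳ x) (hwz : w ⤳ z) (hz : Sp f π z)
    (hz' : ¬ GenSp f π w z) (hfin : Order.coheight w ≠ ⊤)
    (hc : Order.coheight z ≤ Order.coheight w + 2) :
    QQ' hx hzx ∈ YO (rho hx).range (kA f w π) 2 := by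
  have hp := QQ'_prime hx hzx hwz
  obtain ⟨Q, hQ, h2⟩ := exists_two_le f π hx hw hzx hwz hz hz'
  refine ⟨hp, ⟨kA_mem f hx π, (pi_mem_QQ' f π hx hzx hwz _).2 hz⟩, Q, hQ, ?_⟩
  refine le_antisymm ?_ h2
  have := hQ.1
  have h := height_le_comap (R := (rho hx).range) Q
  rw [hQ.2] at h
  exact h.trans (height_QQ'_le hx hfin 2 z hzx hwz hc)

theorem genSp_of_mem_YO (hw : ¬ Sp f π w) (hE : EQH (rho hx).range) {z : X} (hzx : z ⤳ x)
    (hwz : w ⤳ z) (h : QQ' hx hzx ∈ YO (rho hx).range (kA f w π) 1) : GenSp f π w z := by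
  obtain ⟨-, ⟨hπ, hπz⟩, Q, hQ, h1⟩ := h
  have hz : Sp f π z := (pi_mem_QQ' f π hx hzx hwz hπ).1 hπz
  by_contra hc
  obtain ⟨Q2, hQ2, h2⟩ := exists_two_le f π hx hw hzx hwz hz hc
  have := hE Q Q2 hQ.1 hQ2.1 (hQ.2.trans hQ2.2.symm)
  rw [h1] at this
  rw [← this] at h2
  exact absurd h2 (by decide)

end YO

open Classical in
/-- The localisations of a subring at its primes. -/
noncomputable def locF {F : Type u} [Field F] (O : Subring F) (y : Ideal O) : Subring F :=
  if h : y.IsPrime then locSub O y (hQ := h) else O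

theorem locF_family {F : Type u} [Field F] (O : Subring F) : LocFamily O (locF O) := by
  intro y hy x
  unfold locF
  rw [dif_pos hy]
  exact Iff.rfl

theorem icl_locF {w y x : X} (hx : w ⤳ x) (hyx : y ⤳ x) (hwy : w ⤳ y) :
    icl (locF (rho hx).range (QQ' hx hyx)) (X.residueField w) = BB hwy := by
  have e : locF (rho hx).range (QQ' hx hyx) = (rho hwy).range := by
    ext z
    rw [locF_family _ _ (QQ'_prime hx hyx hwy) z, mem_range_iff hx hyx hwy]
  rw [e]
  rfl

/-- STAR at the points of a scheme. -/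
theorem starx_pts (hS : T_STARX.{u}) (f : X ⟶ Spec (CommRingCat.of A)) (π : A) {q E n : ℕ}
    (hn : 2 * E + 2 ≤ n) {w x y0 : X} (hx : w ⤳ x)
    [∀ y : X, IsNoetherianRing (X.presheaf.stalk y)]
    (hP : PtSit (rho hx).range (kA f w π) q E) (hw : ¬ Sp f π w) (hfin : Order.coheight w ≠ ⊤)
    (hy0x : y0 ⤳ x) (hwy0 : w ⤳ y0) (hy0 : Sp f π y0) (hg : ¬ GenSp f π w y0)
    (hc0 : Order.coheight y0 ≤ Order.coheight w + 2) (m : ℕ)
    (c : MilnorK (X.residueField w) (m + 2))
    (hc : ∀ (y : X) (hwy : w ⤳ y), y ⤳ y0 → GenSp f π w y →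
      c ∈ USub q (kA f w π) n (BB hwy) (m + 2)) :
    ∃ c' : MilnorK (X.residueField w) (m + 2),
      (∀ (y : X) (hwy : w ⤳ y), y ⤳ x → GenSp f π w y →
        c' ∈ USub q (kA f w π) n (BB hwy) (m + 2)) ∧
      c' - c ∈ USub q (kA f w π) n (BB hwy0) (m + 2) ∧
      ∀ (y : X) (hwy : w ⤳ y), y ⤳ x → Sp f π y → ¬ GenSp f π w y →
        Order.coheight y ≤ Order.coheight w + 2 → y ≠ y0 →
        c' ∈ USub q (kA f w π) n (BB hwy) (m + 2) := by
  obtain ⟨c', h1, h2, h3⟩ := hS (X.residueField w) (rho hx).range (kA f w π) q E n hP hn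
    (locF (rho hx).range) (locF_family _) m (QQ' hx hy0x)
    (mem_YO_two f π hx hw hy0x hwy0 hy0 hg hfin hc0) c (by
      intro y hy hle
      obtain ⟨z, hzx, hwz, rfl⟩ := exists_QQ' hx y hy.1
      have hz := genSp_of_mem_YO f π hx hw hP.eqh hzx hwz hy
      rw [icl_locF hx hzx hwz]
      exact hc z hwz ((QQ'_le_iff hx hzx hy0x hwz hwy0).1 hle) hz)
  refine ⟨c', ?_, ?_, ?_⟩
  · intro y hwy hyx hy
    rw [← icl_locF hx hyx hwy]
    exact h1 _ (mem_YO_one f π hx hw hyx hy)
  · rw [← icl_locF hx hy0x hwy0]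
    exact h2
  · intro y hwy hyx hsp hg' hc' hne
    rw [← icl_locF hx hyx hwy]
    refine h3 _ (mem_YO_two f π hx hw hyx hwy hsp hg' hfin hc') ?_
    intro e
    exact hne (QQ'_inj hx hyx hy0x hwy hwy0 e)

end Pool.Agent.H15.KEW
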