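import Pool.Agent.H15.KEW.Asm4
import Pool.Agent.H12.KG.Final

/-!
# Injectivity of the restriction map
-/

namespace Pool.Agent.H15.KEW

open AlgebraicGeometry CategoryTheory IsLocalRing Pool.Agent.H17.KW Pool.Agent.H12.KG

universe u

/-- The restriction map `CH^d(X) / p^r → H^d(X_n, K^M_d / p^r)` is injective for all large `n`. -/
theorem injectivity : Statement.{u} := statement_of_last done_LAST

end Pool.Agent.H15.KEW
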