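import Pool.Agent.H12.KG.Iface

/-!
# Points specialising to a point and primes of its local ring
-/

namespace Pool.Agent.H15.KEW

open AlgebraicGeometry CategoryTheory Pool.Agent.H12.KG IsLocalRing

universe u

variable {X : Scheme.{u}}

/-- The prime of `O_{X,y}` attached to a generisation `w` of `y`. -/
noncomputable def prm {w y : X} (h : w ⤳ y) : PrimeSpectrum (X.presheaf.stalk y) :=
  ⟨RingHom.ker (rho h), RingHom.ker_isPrime _⟩

theorem rho_apply {w y : X} (h : w ⤳ y) (a : X.presheaf.stalk y) :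
    rho h a = X.residue w (X.presheaf.stalkSpecializes h a) := rfl

theorem prm_eq {w y : X} (h : w ⤳ y) :
    prm h = (Spec.map (X.presheaf.stalkSpecializes h)).base (closedPoint (X.presheaf.stalk w)) := by
  apply PrimeSpectrum.ext
  ext a
  show a ∈ RingHom.ker (rho h) ↔
    (X.presheaf.stalkSpecializes h) a ∈ maximalIdeal (X.presheaf.stalk w)
  rw [RingHom.mem_ker, rho_apply]
  exact IsLocalRing.residue_eq_zero_iff _

theorem fromSpecStalk_prm {w y : X} (h : w ⤳ y) : (X.fromSpecStalk y).base (prm h) = w := by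
  rw [prm_eq]
  have e := Scheme.SpecMap_stalkSpecializes_fromSpecStalk (X := X) h
  have h2 := congrArg (fun f : Spec (X.presheaf.stalk w) ⟶ X =>
    f.base (closedPoint (X.presheaf.stalk w))) e
  refine Eq.trans ?_ (h2.trans Scheme.fromSpecStalk_closedPoint)
  rfl

theorem fromSpecStalk_inj {y : X} {P Q : PrimeSpectrum (X.presheaf.stalk y)}
    (h : (X.fromSpecStalk y).base P = (X.fromSpecStalk y).base Q) : P = Q :=
  (X.fromSpecStalk y).isEmbedding.injective h

/-- Every prime of the local ring is the prime of a generisation. -/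
theorem exists_prm {y : X} (P : PrimeSpectrum (X.presheaf.stalk y)) :
    ∃ (w : X) (h : w ⤳ y), prm h = P := by
  have h : (X.fromSpecStalk y).base P ⤳ y := by
    have : (X.fromSpecStalk y).base P ∈ Set.range (X.fromSpecStalk y).base := ⟨P, rfl⟩
    rwa [Scheme.range_fromSpecStalk] at this
  exact ⟨_, h, fromSpecStalk_inj (fromSpecStalk_prm h)⟩

theorem prm_le_iff {w w' y : X} (h : w ⤳ y) (h' : w' ⤳ y) : prm h ≤ prm h' ↔ w ⤳ w' := by
  have e := (X.fromSpecStalk y).isEmbedding.isInducing.specializes_iff (x := prm h) (y := prm h')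
  rw [PrimeSpectrum.le_iff_specializes]
  refine e.symm.trans ?_
  have e1 := fromSpecStalk_prm h
  have e2 := fromSpecStalk_prm h'
  constructor
  · intro k; rwa [← e1, ← e2]
  · intro k; rwa [← e1, ← e2] at k

theorem prm_inj {w w' y : X} (h : w ⤳ y) (h' : w' ⤳ y) (e : prm h = prm h') : w = w' := by
  rw [← fromSpecStalk_prm h, ← fromSpecStalk_prm h', e]

theorem prm_self (y : X) : prm (specializes_rfl (x := y)) = closedPoint (X.presheaf.stalk y) := by
  apply fromSpecStalk_inj
  rw [fromSpecStalk_prm]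
  exact Scheme.fromSpecStalk_closedPoint.symm

theorem rho_comp {w w' y : X} (h : w ⤳ w') (h' : w' ⤳ y) (a : X.presheaf.stalk y) :
    rho h (X.presheaf.stalkSpecializes h' a) = rho (h.trans h') a := by
  rw [rho_apply, rho_apply]
  have e := X.presheaf.stalkSpecializes_comp h h'
  have e2 := congrArg (fun g : X.presheaf.stalk y ⟶ X.presheaf.stalk w => g a) e
  exact congrArg (X.residue w) e2

variable {A : Type u} [CommRing A]

theorem stalkSpecializes_stA (f : X ⟶ Spec (CommRingCat.of A)) {w y : X} (h : w ⤳ y) (a : A) :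
    X.presheaf.stalkSpecializes h (stA f y a) = stA f w a := by
  unfold stA
  have := X.presheaf.germ_stalkSpecializes (U := ⊤) (y := y) trivial h
  rw [← this]
  rfl

theorem rho_stA (f : X ⟶ Spec (CommRingCat.of A)) {w y : X} (h : w ⤳ y) (a : A) :
    rho h (stA f y a) = kA f w a := by
  rw [rho_apply, stalkSpecializes_stA]
  rfl

/-- `w` is a point of the special fibre iff `π` is in its prime. -/
theorem sp_iff (f : X ⟶ Spec (CommRingCat.of A)) (π : A) {w y : X} (h : w ⤳ y) :
    Sp f π w ↔ stA f y π ∈ (prm h).asIdeal := by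
  show ¬ IsUnit (stA f w π) ↔ rho h (stA f y π) = 0
  rw [rho_apply, stalkSpecializes_stA]
  rw [← mem_nonunits_iff, ← mem_maximalIdeal]
  exact (IsLocalRing.residue_eq_zero_iff _).symm

theorem sp_iff' (f : X ⟶ Spec (CommRingCat.of A)) (π : A) (w : X) :
    Sp f π w ↔ kA f w π = 0 := by
  rw [sp_iff f π (specializes_rfl (x := w))]
  show rho _ (stA f w π) = 0 ↔ _
  rw [rho_stA]

theorem Sp.mono {f : X ⟶ Spec (CommRingCat.of A)} {π : A} {w y : X} (h : w ⤳ y)
    (hw : Sp f π w) : Sp f π y := by
  intro hu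
  apply hw
  rw [← stalkSpecializes_stA f h]
  exact hu.map (X.presheaf.stalkSpecializes h).hom

end Pool.Agent.H15.KEW
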